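import Pool.Agent.KS6_32.BD.Near

/-! The energy inequality for one stage, summed over the levels. -/

set_option autoImplicit false

namespace Pool.Agent.KS6_32.BD

open Pool.Agent.H320R2.PD Pool.Agent.H499R2.ND Pool.Agent.H499R2.CO Pool.Agent.W41.FU Finset
open Pool.Agent.Y965.SI

/-! ### Elementary facts about sums -/

theorem window_up {h : ℕ → ℝ} (h0 : ∀ j, 0 ≤ h j) (h1 : ∀ j, h j ≤ 1) (n a : ℕ) : ∀ d : ℕ,
    |∑ m ∈ range n, h (m + (a + d)) - ∑ m ∈ range n, h (m + a)| ≤ d := by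
  intro d
  induction d with
  | zero => simp
  | succ d ih =>
    have e : ∑ m ∈ range n, h (m + (a + (d + 1))) = ∑ m ∈ range n, h (m + (a + d)) + h (n + (a + d)) - h (a + d) := by
      have e1 := sum_range_succ' (fun m => h (m + (a + d))) n
      have e2 := sum_range_succ (fun m => h (m + (a + d))) n
      have e3 : ∑ m ∈ range n, h (m + (a + (d + 1))) = ∑ m ∈ range n, h (m + 1 + (a + d)) := by
        apply sum_congr rfl
        intro m _
        congr 1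
        ring
      rw [e3]
      simp only [zero_add] at e1
      linarith
    rw [e]
    have h2 := h0 (n + (a + d))
    have h3 := h1 (n + (a + d))
    have h4 := h0 (a + d)
    have h5 := h1 (a + d)
    rw [abs_le] at ih ⊢
    push_cast
    constructor <;> linarith [ih.1, ih.2]

theorem window_shift {h : ℕ → ℝ} (h0 : ∀ j, 0 ≤ h j) (h1 : ∀ j, h j ≤ 1) (n a b : ℕ) :
    ∑ m ∈ range n, h (m + b) - |(a : ℝ) - b| ≤ ∑ m ∈ range n, h (m + a) := by
  rcases le_total a b with hab | hab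
  · obtain ⟨d, rfl⟩ := Nat.exists_eq_add_of_le hab
    have h2 := (abs_le.1 (window_up h0 h1 n a d)).2
    have h3 : |(a : ℝ) - ((a + d : ℕ) : ℝ)| = d := by
      push_cast
      rw [show (a : ℝ) - (a + d) = -d by ring, abs_neg, abs_of_nonneg (Nat.cast_nonneg d)]
    linarith
  · obtain ⟨d, rfl⟩ := Nat.exists_eq_add_of_le hab
    have h2 := (abs_le.1 (window_up h0 h1 n b d)).1
    have h3 : |((b + d : ℕ) : ℝ) - b| = d := by
      push_cast
      rw [show (b : ℝ) + d - b = d by ring, abs_of_nonneg (Nat.cast_nonneg d)]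
    linarith

theorem tele (h : ℕ → ℝ) (m a : ℕ) : ∀ d : ℕ,
    |h (m + (a + d)) - h (m + a)| ≤ ∑ j ∈ Ico a (a + d), |h (m + j + 1) - h (m + j)| := by
  intro d
  induction d with
  | zero => simp
  | succ d ih =>
    rw [← add_assoc a d 1, sum_Ico_succ_top (by omega)]
    have e : m + (a + d + 1) = m + (a + d) + 1 := by ring
    rw [e]
    have := abs_sub_le (h (m + (a + d) + 1)) (h (m + (a + d))) (h (m + a))
    linarith

/-- the mean of the differences of two levels -/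
theorem diff_levels {I M : ℕ} (h : ℕ → ℕ → ℝ) (n a b : ℕ) (ha : n + a ≤ M) (hb : n + b ≤ M) :
    ∑ m ∈ range n, (1 / (I : ℝ) * ∑ i ∈ range I, |h i (m + a) - h i (m + b)|)
      ≤ |(a : ℝ) - b| * ∑ j ∈ range M, (1 / (I : ℝ) * ∑ i ∈ range I, |h i (j + 1) - h i j|) := by
  have key : ∀ a d : ℕ, n + (a + d) ≤ M →
      ∑ m ∈ range n, (1 / (I : ℝ) * ∑ i ∈ range I, |h i (m + (a + d)) - h i (m + a)|)
      ≤ d * ∑ j ∈ range M, (1 / (I : ℝ) * ∑ i ∈ range I, |h i (j + 1) - h i j|) := by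
    intro a d hd
    have h1 : ∀ m ∈ range n, (1 / (I : ℝ) * ∑ i ∈ range I, |h i (m + (a + d)) - h i (m + a)|)
        ≤ ∑ j ∈ Ico a (a + d), (1 / (I : ℝ) * ∑ i ∈ range I, |h i (m + j + 1) - h i (m + j)|) := by
      intro m _
      rw [← mul_sum]
      apply mul_le_mul_of_nonneg_left _ (by positivity)
      rw [sum_comm]
      exact sum_le_sum fun i _ => tele (h i) m a d
    refine (sum_le_sum h1).trans ?_
    rw [sum_comm]
    have h2 : ∀ j ∈ Ico a (a + d), ∑ m ∈ range n, (1 / (I : ℝ) * ∑ i ∈ range I, |h i (m + j + 1) - h i (m + j)|)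
        ≤ ∑ j ∈ range M, (1 / (I : ℝ) * ∑ i ∈ range I, |h i (j + 1) - h i j|) := by
      intro j hj
      rw [mem_Ico] at hj
      have e : ∑ m ∈ range n, (1 / (I : ℝ) * ∑ i ∈ range I, |h i (m + j + 1) - h i (m + j)|)
          = ∑ l ∈ (range n).image (fun m => m + j), (1 / (I : ℝ) * ∑ i ∈ range I, |h i (l + 1) - h i l|) := by
        rw [sum_image]
        intro x _ y _ hxy
        simp only at hxy
        omega
      rw [e]
      apply sum_le_sum_of_subset_of_nonneg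
      · intro l hl
        rw [mem_image] at hl
        obtain ⟨m, hm, rfl⟩ := hl
        rw [mem_range] at hm ⊢
        omega
      · intro l _ _
        exact mul_nonneg (by positivity) (sum_nonneg fun i _ => abs_nonneg _)
    refine (sum_le_sum h2).trans ?_
    rw [sum_const, Nat.card_Ico, nsmul_eq_mul, Nat.add_sub_cancel_left]
  rcases le_total a b with hab | hab
  · obtain ⟨d, rfl⟩ := Nat.exists_eq_add_of_le hab
    have h3 : |(a : ℝ) - ((a + d : ℕ) : ℝ)| = d := by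
      push_cast
      rw [show (a : ℝ) - (a + d) = -d by ring, abs_neg, abs_of_nonneg (Nat.cast_nonneg d)]
    rw [h3]
    refine le_trans (le_of_eq ?_) (key a d hb)
    apply sum_congr rfl
    intro m _
    congr 1
    apply sum_congr rfl
    intro i _
    rw [abs_sub_comm]
  · obtain ⟨d, rfl⟩ := Nat.exists_eq_add_of_le hab
    have h3 : |((b + d : ℕ) : ℝ) - b| = d := by
      push_cast
      rw [show (b : ℝ) + d - b = d by ring, abs_of_nonneg (Nat.cast_nonneg d)]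
    rw [h3]
    exact key b d ha

/-- the variance identity -/
theorem variance {ι : Type*} (F : Finset ι) (p φ : ι → ℝ) :
    (∑ w ∈ F, p w * φ w) ^ 2 = (∑ w ∈ F, p w) * ∑ w ∈ F, p w * φ w ^ 2
      - 1 / 2 * ∑ w ∈ F, ∑ v ∈ F, p w * p v * (φ w - φ v) ^ 2 := by
  have e1 : ∑ w ∈ F, ∑ v ∈ F, p w * p v * (φ w - φ v) ^ 2
      = 2 * ((∑ w ∈ F, p w) * ∑ w ∈ F, p w * φ w ^ 2) - 2 * (∑ w ∈ F, p w * φ w) ^ 2 := by
    have h1 : ∀ w ∈ F, ∑ v ∈ F, p w * p v * (φ w - φ v) ^ 2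
        = p w * φ w ^ 2 * ∑ v ∈ F, p v + p w * ∑ v ∈ F, p v * φ v ^ 2 - 2 * (p w * φ w) * ∑ v ∈ F, p v * φ v := by
      intro w _
      rw [mul_sum, mul_sum, mul_sum, ← sum_add_distrib, ← sum_sub_distrib]
      apply sum_congr rfl
      intro v _
      ring
    rw [sum_congr rfl h1, sum_sub_distrib, sum_add_distrib, ← sum_mul, ← sum_mul, ← sum_mul, ← mul_sum]
    ring
  rw [e1]; ring

/-! ### The words -/

theorem mass_all {k : ℕ} (hk : 1 ≤ k) : 1 - ∑ w ∈ FW (3 * k) k, wwt w ≤ 1 / k := by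
  rw [sum_wwt]
  have hk0 : (0 : ℝ) < k := by exact_mod_cast hk
  have h1 := one_add_mul_le_pow (a := -(1 / 2 : ℝ) ^ (3 * k)) (by
    have : (1 / 2 : ℝ) ^ (3 * k) ≤ 1 := pow_le_one₀ (by norm_num) (by norm_num)
    linarith) k
  have h2 : (k : ℝ) * (1 / 2 : ℝ) ^ (3 * k) ≤ 1 / k := by
    rw [le_div_iff₀ hk0]
    have h3 : (k : ℝ) ≤ 2 ^ k := by exact_mod_cast Nat.lt_two_pow_self.le
    have h4 : (k : ℝ) * k ≤ 2 ^ k * 2 ^ k := mul_le_mul h3 h3 hk0.le (by positivity)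
    have e : (1 / 2 : ℝ) ^ (3 * k) = 1 / (2 ^ k * 2 ^ k * 2 ^ k) := by
      rw [one_div_pow, ← pow_add, ← pow_add]
      congr 2
      ring
    rw [e]
    have h5 : (1 : ℝ) ≤ 2 ^ k := one_le_pow₀ (by norm_num)
    have e2 : (k : ℝ) * (1 / (2 ^ k * 2 ^ k * 2 ^ k)) * k = (k * k) / (2 ^ k * 2 ^ k) / 2 ^ k := by
      field_simp
    rw [e2, div_le_one (by positivity), div_le_iff₀ (by positivity)]
    have : (0 : ℝ) < 2 ^ k * 2 ^ k := by positivity
    nlinarith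
  have e3 : (1 + -(1 / 2 : ℝ) ^ (3 * k)) = 1 - (1 / 2) ^ (3 * k) := by ring
  rw [e3] at h1
  linarith

theorem second_moment (k : ℕ) : ∑ w ∈ FW (3 * k) k, wwt w * ((w.sum : ℝ) - 2 * k) ^ 2 ≤ 2 * (k : ℝ) := by
  have h1 := Pn_words (3 * k) k (fun m : ℕ => (1 : ℝ) * ((m : ℝ) - (2 * k : ℝ)) ^ 2 + 0) 0
  have h2 := quad_iter (3 * k) 1 (2 * k) zero_le_one k 0 le_rfl 0
  rw [h1] at h2
  have e1 : ∑ w ∈ FW (3 * k) k, wwt w * ((w.sum : ℝ) - 2 * k) ^ 2
      = ∑ w ∈ FW (3 * k) k, wwt w * (1 * (((0 + w.sum : ℕ) : ℝ) - 2 * k) ^ 2 + 0) := by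
    apply sum_congr rfl
    intro w _
    rw [zero_add]
    ring
  have e2 : (1 : ℝ) * ((((0 : ℕ) : ℝ) + 2 * k - 2 * k) ^ 2 + 2 * k) + 0 = 2 * k := by push_cast; ring
  rw [e2] at h2
  rw [e1]
  exact h2

theorem first_moment {k : ℕ} (hk : 1 ≤ k) : ∑ w ∈ FW (3 * k) k, wwt w * |(w.sum : ℝ) - 2 * k| ≤ √ (2 * k) := by
  have hk0 : (0 : ℝ) < k := by exact_mod_cast hk
  set s : ℝ := √ (2 * k) with hs
  have hs0 : 0 < s := Real.sqrt_pos.2 (by positivity)
  have hs2 : s ^ 2 = 2 * k := Real.sq_sqrt (by positivity)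
  have h1 : ∀ w ∈ FW (3 * k) k, wwt w * |(w.sum : ℝ) - 2 * k|
      ≤ wwt w * (s / 2) + 1 / (2 * s) * (wwt w * ((w.sum : ℝ) - 2 * k) ^ 2) := by
    intro w _
    have h2 : |(w.sum : ℝ) - 2 * k| ≤ s / 2 + 1 / (2 * s) * ((w.sum : ℝ) - 2 * k) ^ 2 := by
      rw [← sq_abs ((w.sum : ℝ) - 2 * k)]
      set x := |(w.sum : ℝ) - 2 * k|
      have e : s / 2 + 1 / (2 * s) * x ^ 2 - x = (x - s) ^ 2 / (2 * s) := by field_simp; ring
      have : 0 ≤ (x - s) ^ 2 / (2 * s) := by positivity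
      linarith
    have h3 := mul_le_mul_of_nonneg_left h2 (wwt_nonneg w)
    linarith
  refine (sum_le_sum h1).trans ?_
  rw [sum_add_distrib, ← sum_mul, ← mul_sum]
  have h2 := second_moment k
  have h3 := sum_wwt_le (3 * k) k
  have h4 : (∑ w ∈ FW (3 * k) k, wwt w) * (s / 2) ≤ 1 * (s / 2) := mul_le_mul_of_nonneg_right h3 (by positivity)
  have h5 : 1 / (2 * s) * ∑ w ∈ FW (3 * k) k, wwt w * ((w.sum : ℝ) - 2 * k) ^ 2 ≤ 1 / (2 * s) * (2 * k) :=
    mul_le_mul_of_nonneg_left h2 (by positivity)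
  have e : 1 / (2 * s) * (2 * (k : ℝ)) = s / 2 := by
    rw [← hs2]; field_simp
  rw [e] at h5
  linarith

theorem double_sum_le {ι : Type*} (F : Finset ι) (p g : ι → ℝ) (hp : ∀ w, 0 ≤ p w) (hg : ∀ w, 0 ≤ g w)
    (hP : ∑ w ∈ F, p w ≤ 1) : ∑ w ∈ F, ∑ v ∈ F, p w * p v * (g w + g v) ≤ 2 * ∑ w ∈ F, p w * g w := by
  have h1 : ∑ w ∈ F, ∑ v ∈ F, p w * p v * (g w + g v) = 2 * ((∑ w ∈ F, p w) * ∑ w ∈ F, p w * g w) := by
    have h2 : ∀ w ∈ F, ∑ v ∈ F, p w * p v * (g w + g v) = p w * g w * ∑ v ∈ F, p v + p w * ∑ v ∈ F, p v * g v := by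
      intro w _
      rw [mul_sum, mul_sum, ← sum_add_distrib]
      apply sum_congr rfl
      intro v _
      ring
    rw [sum_congr rfl h2, sum_add_distrib, ← sum_mul, ← sum_mul]
    ring
  rw [h1]
  have h3 : 0 ≤ ∑ w ∈ F, p w * g w := sum_nonneg fun w _ => mul_nonneg (hp w) (hg w)
  have h4 := mul_le_mul_of_nonneg_right hP h3
  linarith

/-! ### One stage -/

theorem stage_en {d : ℤ} (hd : Odd d) (hd3 : IsCoprime d 3) (hdd : d * d = 1) :
    ∃ Cs : ℝ, 0 < Cs ∧ ∀ k : ℕ, 100 ≤ k → ∀ f : ℤ → ℝ, InvF d f → ∀ I : ℕ, 1 ≤ I → ∀ A : ℝ, 0 < A →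
      10 * (k : ℝ) ≤ Real.log (A / I) → ∀ n : ℕ,
      ∑ m ∈ range n, en f I (A * 3 ^ k / 4 ^ k * 2 ^ m) - (n * (Cs / rt k) + √ (2 * k)
        + 2 * √ (2 * k) * ∑ j ∈ range (n + 3 * k), dl f I (A * 3 ^ k / 8 ^ k * 2 ^ j))
      ≤ ∑ m ∈ range n, en f I (A * 2 ^ m) := by
  obtain ⟨Cs, hCs, hst⟩ := stageQ hd hd3 hdd
  refine ⟨2 * Cs + 10, by positivity, ?_⟩
  intro k hk f hf I hI A hA hL n
  classical
  have hk1 : 1 ≤ k := by omega
  have hk0 : (0 : ℝ) < k := by exact_mod_cast hk1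
  have hk100 : (100 : ℝ) ≤ k := by exact_mod_cast hk
  have hI0 : (0 : ℝ) < I := by exact_mod_cast hI
  have hr4 := rt_pow k
  have hr1 : 1 ≤ rt k := by
    by_contra hcon
    push Not at hcon
    have : rt k ^ 4 < 1 ^ 4 := pow_lt_pow_left₀ hcon (rt_nonneg k) (by norm_num)
    linarith
  have hr0 : 0 < rt k := by linarith
  have hrk : rt k ≤ k := by
    calc rt k ≤ rt k ^ 4 := le_self_pow₀ hr1 (by norm_num)
      _ = k := hr4
  set F := FW (3 * k) k with hF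
  set ε : ℝ := Cs / rt k with hε
  have hε0 : 0 < ε := by positivity
  have hP1 : ∑ w ∈ F, wwt w ≤ 1 := sum_wwt_le _ _
  have hP2 : 1 - ∑ w ∈ F, wwt w ≤ 1 / k := mass_all hk1
  set B : ℝ := A * 3 ^ k / 8 ^ k with hB
  have hB0 : 0 < B := by positivity
  -- levels
  set φ : List ℕ → ℕ → ℕ → ℝ := fun w m i => ph f I (A * 2 ^ m * 3 ^ k / 2 ^ w.sum) i with hφ
  have hsc0 : ∀ (w : List ℕ) (m : ℕ), 0 < A * 2 ^ m * 3 ^ k / 2 ^ w.sum := fun w m => by positivity
  have hφ1 : ∀ w m i, |φ w m i| ≤ 1 := fun w m i => ph_abs hf.1 hI (hsc0 w m) i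
  have hstage : ∀ m i, |ph f I (A * 2 ^ m) i - ∑ w ∈ F, wwt w * φ w m i| ≤ ε := by
    intro m i
    have hA2 : 0 < A * 2 ^ m := by positivity
    have h1 := hst k hk f hf (A * 2 ^ m * (I + i) / I) (A * 2 ^ m * (I + (i + 1)) / I) (cell_lt hI hA2 i).le (by
      have e : A * 2 ^ m * ((I : ℝ) + (i + 1)) / I - A * 2 ^ m * (I + i) / I = A / I * 2 ^ m := by
        field_simp; ring
      rw [e]
      refine hL.trans (Real.log_le_log (by positivity) ?_)
      exact le_mul_of_one_le_right (by positivity) (one_le_pow₀ (by norm_num)))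
    refine le_trans (le_of_eq ?_) h1
    congr 2
    apply sum_congr rfl
    intro w _
    rw [hφ]
    unfold ph
    simp only
    congr 2
    · ring
    · ring
  -- the energy at one level
  have hlevel : ∀ m, ∑ w ∈ F, wwt w * en f I (A * 2 ^ m * 3 ^ k / 2 ^ w.sum) - (1 / k + 2 * ε)
      - ∑ w ∈ F, ∑ v ∈ F, wwt w * wwt v * (1 / (I : ℝ) * ∑ i ∈ range I, |φ w m i - φ v m i|)
      ≤ en f I (A * 2 ^ m) := by
    intro m
    have h1 : ∀ i ∈ range I, ∑ w ∈ F, wwt w * φ w m i ^ 2 - (1 / k + 2 * ε)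
        - ∑ w ∈ F, ∑ v ∈ F, wwt w * wwt v * |φ w m i - φ v m i| ≤ ph f I (A * 2 ^ m) i ^ 2 := by
      intro i _
      set ψ := ∑ w ∈ F, wwt w * φ w m i with hψ
      have h2 := hstage m i
      have hx := ph_abs hf.1 hI (show 0 < A * 2 ^ m by positivity) i
      set x := ph f I (A * 2 ^ m) i
      have hψ1 : |ψ| ≤ 1 := by
        rw [hψ]
        refine (abs_sum_le_sum_abs _ _).trans (le_trans ?_ hP1)
        apply sum_le_sum
        intro w _
        rw [abs_mul, abs_of_nonneg (wwt_nonneg w)]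
        exact mul_le_of_le_one_right (wwt_nonneg w) (hφ1 w m i)
      have h3 : ψ ^ 2 - 2 * ε ≤ x ^ 2 := by
        have e : ψ ^ 2 - x ^ 2 = (ψ - x) * (ψ + x) := by ring
        have h4 : |(ψ - x) * (ψ + x)| ≤ ε * 2 := by
          rw [abs_mul]
          apply mul_le_mul _ _ (abs_nonneg _) hε0.le
          · rw [abs_sub_comm]; exact h2
          · have := abs_add_le ψ x; linarith
        have := le_abs_self ((ψ - x) * (ψ + x))
        linarith
      have h4 := variance F wwt (fun w => φ w m i)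
      rw [← hψ] at h4
      have h5 : 0 ≤ ∑ w ∈ F, wwt w * φ w m i ^ 2 := sum_nonneg fun w _ => mul_nonneg (wwt_nonneg w) (sq_nonneg _)
      have h6 : ∑ w ∈ F, wwt w * φ w m i ^ 2 ≤ 1 := by
        refine le_trans ?_ hP1
        apply sum_le_sum
        intro w _
        have : φ w m i ^ 2 ≤ 1 := by
          rw [← sq_abs]; exact pow_le_one₀ (abs_nonneg _) (hφ1 w m i)
        exact mul_le_of_le_one_right (wwt_nonneg w) this
      have h7 : ∑ w ∈ F, wwt w * φ w m i ^ 2 - 1 / k ≤ (∑ w ∈ F, wwt w) * ∑ w ∈ F, wwt w * φ w m i ^ 2 := by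
        have h8 : (1 - ∑ w ∈ F, wwt w) * ∑ w ∈ F, wwt w * φ w m i ^ 2 ≤ 1 / k := by
          have h9 : 0 ≤ 1 - ∑ w ∈ F, wwt w := by linarith
          calc (1 - ∑ w ∈ F, wwt w) * ∑ w ∈ F, wwt w * φ w m i ^ 2 ≤ (1 - ∑ w ∈ F, wwt w) * 1 :=
                mul_le_mul_of_nonneg_left h6 h9
            _ ≤ 1 / k := by linarith
        linarith
      have h8 : 1 / 2 * ∑ w ∈ F, ∑ v ∈ F, wwt w * wwt v * (φ w m i - φ v m i) ^ 2
          ≤ ∑ w ∈ F, ∑ v ∈ F, wwt w * wwt v * |φ w m i - φ v m i| := by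
        rw [mul_sum]
        apply sum_le_sum
        intro w _
        rw [mul_sum]
        apply sum_le_sum
        intro v _
        have h9 : 1 / 2 * (φ w m i - φ v m i) ^ 2 ≤ |φ w m i - φ v m i| := by
          rw [← sq_abs]
          have h10 := abs_sub (φ w m i) (φ v m i)
          have h11 := hφ1 w m i
          have h12 := hφ1 v m i
          nlinarith [abs_nonneg (φ w m i - φ v m i)]
        have h10 := mul_le_mul_of_nonneg_left h9 (mul_nonneg (wwt_nonneg w) (wwt_nonneg v))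
        linarith
      linarith
    have h2 := sum_le_sum h1
    rw [sum_sub_distrib, sum_sub_distrib, sum_const, card_range, nsmul_eq_mul] at h2
    unfold en
    have h3 := mul_le_mul_of_nonneg_left h2 (show 0 ≤ 1 / (I : ℝ) by positivity)
    refine le_trans (le_of_eq ?_) h3
    have s1 : 1 / (I : ℝ) * ∑ i ∈ range I, ∑ w ∈ F, wwt w * φ w m i ^ 2
        = ∑ w ∈ F, wwt w * (1 / (I : ℝ) * ∑ i ∈ range I, ph f I (A * 2 ^ m * 3 ^ k / 2 ^ w.sum) i ^ 2) := by
      rw [sum_comm, mul_sum]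
      apply sum_congr rfl
      intro w _
      rw [← mul_sum]
      ring
    have s2 : 1 / (I : ℝ) * ∑ i ∈ range I, ∑ w ∈ F, ∑ v ∈ F, wwt w * wwt v * |φ w m i - φ v m i|
        = ∑ w ∈ F, ∑ v ∈ F, wwt w * wwt v * (1 / (I : ℝ) * ∑ i ∈ range I, |φ w m i - φ v m i|) := by
      rw [sum_comm, mul_sum]
      apply sum_congr rfl
      intro w _
      rw [sum_comm, mul_sum]
      apply sum_congr rfl
      intro v _
      rw [← mul_sum]
      ring
    rw [mul_sub, mul_sub, s1, s2]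
    congr 2
    field_simp
  -- summing over the levels
  have hsum := sum_le_sum (s := range n) fun m _ => hlevel m
  rw [sum_sub_distrib, sum_sub_distrib, sum_const, card_range, nsmul_eq_mul] at hsum
  have hnR : (0 : ℝ) ≤ n := Nat.cast_nonneg n
  -- part A
  set S := ∑ m ∈ range n, en f I (A * 3 ^ k / 4 ^ k * 2 ^ m) with hS
  have hSn : S ≤ n := by
    rw [hS]
    calc ∑ m ∈ range n, en f I (A * 3 ^ k / 4 ^ k * 2 ^ m) ≤ ∑ m ∈ range n, (1 : ℝ) :=
          sum_le_sum fun m _ => en_le_one hf.1 hI (by positivity)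
      _ = n := by rw [sum_const, card_range, nsmul_eq_mul, mul_one]
  have hA1 : ∀ w ∈ F, S - |(w.sum : ℝ) - 2 * k| ≤ ∑ m ∈ range n, en f I (A * 2 ^ m * 3 ^ k / 2 ^ w.sum) := by
    intro w _
    have h1 := window_shift (h := fun j => en f I (A * 3 ^ k / 2 ^ (w.sum + 2 * k) * 2 ^ j))
      (fun j => en_nonneg _ _ _) (fun j => en_le_one hf.1 hI (by positivity)) n (2 * k) w.sum
    have e1 : ∑ m ∈ range n, en f I (A * 3 ^ k / 2 ^ (w.sum + 2 * k) * 2 ^ (m + w.sum)) = S := by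
      rw [hS]
      apply sum_congr rfl
      intro m _
      congr 1
      have e : (4 : ℝ) ^ k = 2 ^ (2 * k) := by rw [pow_mul]; norm_num
      rw [e, pow_add, pow_add]
      field_simp
    have e2 : ∑ m ∈ range n, en f I (A * 3 ^ k / 2 ^ (w.sum + 2 * k) * 2 ^ (m + 2 * k))
        = ∑ m ∈ range n, en f I (A * 2 ^ m * 3 ^ k / 2 ^ w.sum) := by
      apply sum_congr rfl
      intro m _
      congr 1
      rw [pow_add, pow_add]
      field_simp
    rw [e1, e2] at h1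
    have e3 : |((2 * k : ℕ) : ℝ) - w.sum| = |(w.sum : ℝ) - 2 * k| := by
      rw [abs_sub_comm]; push_cast; rfl
    rw [e3] at h1
    exact h1
  have hpartA : S - n / k - √ (2 * k) ≤ ∑ m ∈ range n, ∑ w ∈ F, wwt w * en f I (A * 2 ^ m * 3 ^ k / 2 ^ w.sum) := by
    have h1 : ∑ w ∈ F, wwt w * (S - |(w.sum : ℝ) - 2 * k|)
        ≤ ∑ w ∈ F, wwt w * ∑ m ∈ range n, en f I (A * 2 ^ m * 3 ^ k / 2 ^ w.sum) :=
      sum_le_sum fun w hw => mul_le_mul_of_nonneg_left (hA1 w hw) (wwt_nonneg w)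
    have e1 : ∑ w ∈ F, wwt w * ∑ m ∈ range n, en f I (A * 2 ^ m * 3 ^ k / 2 ^ w.sum)
        = ∑ m ∈ range n, ∑ w ∈ F, wwt w * en f I (A * 2 ^ m * 3 ^ k / 2 ^ w.sum) := by
      rw [sum_comm]
      apply sum_congr rfl
      intro w _
      rw [mul_sum]
    rw [e1] at h1
    refine le_trans ?_ h1
    have e2 : ∑ w ∈ F, wwt w * (S - |(w.sum : ℝ) - 2 * k|)
        = (∑ w ∈ F, wwt w) * S - ∑ w ∈ F, wwt w * |(w.sum : ℝ) - 2 * k| := by
      rw [sum_mul, ← sum_sub_distrib]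
      exact sum_congr rfl fun w _ => by ring
    rw [e2]
    have h3 := first_moment hk1
    have h4 : (1 - ∑ w ∈ F, wwt w) * S ≤ n / k := by
      calc (1 - ∑ w ∈ F, wwt w) * S ≤ (1 - ∑ w ∈ F, wwt w) * n := mul_le_mul_of_nonneg_left hSn (by linarith)
        _ ≤ 1 / k * n := mul_le_mul_of_nonneg_right hP2 hnR
        _ = n / k := by ring
    linarith
  -- part B
  set SD := ∑ j ∈ range (n + 3 * k), dl f I (B * 2 ^ j) with hSD
  have hSD0 : 0 ≤ SD := sum_nonneg fun j _ => dl_nonneg _ _ _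
  have hpair : ∀ w ∈ F, ∀ v ∈ F, ∑ m ∈ range n, (1 / (I : ℝ) * ∑ i ∈ range I, |φ w m i - φ v m i|)
      ≤ (|(w.sum : ℝ) - 2 * k| + |(v.sum : ℝ) - 2 * k|) * SD
        + 2 * n * (((w.sum : ℝ) - 2 * k) ^ 2 / k ^ 2 + ((v.sum : ℝ) - 2 * k) ^ 2 / k ^ 2) := by
    intro w _ v _
    by_cases hc : w.sum ≤ 3 * k ∧ v.sum ≤ 3 * k
    · obtain ⟨hc1, hc2⟩ := hc
      have h1 := diff_levels (I := I) (M := n + 3 * k) (fun i j => ph f I (B * 2 ^ j) i) n (3 * k - w.sum) (3 * k - v.sum)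
        (by omega) (by omega)
      have hsc : ∀ (w : List ℕ) (m i : ℕ), w.sum ≤ 3 * k → ph f I (B * 2 ^ (m + (3 * k - w.sum))) i = φ w m i := by
        intro w m i hw
        rw [hφ]
        simp only
        congr 1
        rw [hB]
        have e : (8 : ℝ) ^ k = 2 ^ (3 * k) := by rw [pow_mul]; norm_num
        have e2 : (2 : ℝ) ^ (3 * k) = 2 ^ (3 * k - w.sum) * 2 ^ w.sum := by
          rw [← pow_add]; congr 1; omega
        rw [e, e2, pow_add]
        field_simp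
      have e1 : ∑ m ∈ range n, (1 / (I : ℝ) * ∑ i ∈ range I, |φ w m i - φ v m i|)
          = ∑ m ∈ range n, (1 / (I : ℝ) * ∑ i ∈ range I, |ph f I (B * 2 ^ (m + (3 * k - w.sum))) i
            - ph f I (B * 2 ^ (m + (3 * k - v.sum))) i|) := by
        apply sum_congr rfl
        intro m _
        congr 1
        apply sum_congr rfl
        intro i _
        rw [hsc w m i hc1, hsc v m i hc2]
      have e2 : ∑ j ∈ range (n + 3 * k), (1 / (I : ℝ) * ∑ i ∈ range I, |ph f I (B * 2 ^ (j + 1)) i - ph f I (B * 2 ^ j) i|)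
          = SD := by
        rw [hSD]
        apply sum_congr rfl
        intro j _
        unfold dl
        have e3 : 2 * (B * 2 ^ j) = B * 2 ^ (j + 1) := by ring
        rw [e3]
      rw [e1]
      refine h1.trans ?_
      rw [e2]
      have h2 : |((3 * k - w.sum : ℕ) : ℝ) - ((3 * k - v.sum : ℕ) : ℝ)| ≤ |(w.sum : ℝ) - 2 * k| + |(v.sum : ℝ) - 2 * k| := by
        rw [Nat.cast_sub hc1, Nat.cast_sub hc2]
        have e3 : ((3 * k : ℕ) : ℝ) - (w.sum : ℝ) - (((3 * k : ℕ) : ℝ) - (v.sum : ℝ))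
            = ((v.sum : ℝ) - 2 * k) - ((w.sum : ℝ) - 2 * k) := by ring
        rw [e3]
        have := abs_sub ((v.sum : ℝ) - 2 * k) ((w.sum : ℝ) - 2 * k)
        linarith
      have h3 := mul_le_mul_of_nonneg_right h2 hSD0
      have h4 : 0 ≤ 2 * (n : ℝ) * (((w.sum : ℝ) - 2 * k) ^ 2 / k ^ 2 + ((v.sum : ℝ) - 2 * k) ^ 2 / k ^ 2) := by positivity
      linarith
    · have h1 : ∑ m ∈ range n, (1 / (I : ℝ) * ∑ i ∈ range I, |φ w m i - φ v m i|) ≤ 2 * n := by
        calc ∑ m ∈ range n, (1 / (I : ℝ) * ∑ i ∈ range I, |φ w m i - φ v m i|) ≤ ∑ m ∈ range n, (2 : ℝ) := by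
              apply sum_le_sum
              intro m _
              rw [one_div_mul_eq_div, div_le_iff₀ hI0]
              calc ∑ i ∈ range I, |φ w m i - φ v m i| ≤ ∑ i ∈ range I, (2 : ℝ) := by
                    apply sum_le_sum
                    intro i _
                    have h2 := abs_sub (φ w m i) (φ v m i)
                    have h3 := hφ1 w m i
                    have h4 := hφ1 v m i
                    linarith
                _ = 2 * I := by rw [sum_const, card_range, nsmul_eq_mul, mul_comm]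
          _ = 2 * n := by rw [sum_const, card_range, nsmul_eq_mul, mul_comm]
      have hbig : ∀ t : ℕ, 3 * k < t → (1 : ℝ) ≤ ((t : ℝ) - 2 * k) ^ 2 / k ^ 2 := by
        intro t ht
        have h2 : (3 * k : ℝ) ≤ t := by exact_mod_cast ht.le
        rw [le_div_iff₀ (by positivity), one_mul]
        exact pow_le_pow_left₀ hk0.le (by linarith) 2
      have h2 : (1 : ℝ) ≤ ((w.sum : ℝ) - 2 * k) ^ 2 / k ^ 2 + ((v.sum : ℝ) - 2 * k) ^ 2 / k ^ 2 := by
        rcases not_and_or.1 hc with h | h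
        · have h3 := hbig w.sum (by omega)
          have h4 : 0 ≤ ((v.sum : ℝ) - 2 * k) ^ 2 / k ^ 2 := by positivity
          linarith
        · have h3 := hbig v.sum (by omega)
          have h4 : 0 ≤ ((w.sum : ℝ) - 2 * k) ^ 2 / k ^ 2 := by positivity
          linarith
      have h3 : 2 * (n : ℝ) * 1 ≤ 2 * n * (((w.sum : ℝ) - 2 * k) ^ 2 / k ^ 2 + ((v.sum : ℝ) - 2 * k) ^ 2 / k ^ 2) :=
        mul_le_mul_of_nonneg_left h2 (by positivity)
      have h4 : 0 ≤ (|(w.sum : ℝ) - 2 * k| + |(v.sum : ℝ) - 2 * k|) * SD := by positivity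
      linarith
  have hpartB : ∑ m ∈ range n, ∑ w ∈ F, ∑ v ∈ F, wwt w * wwt v * (1 / (I : ℝ) * ∑ i ∈ range I, |φ w m i - φ v m i|)
      ≤ 2 * √ (2 * k) * SD + 8 * (n / k) := by
    have e1 : ∑ m ∈ range n, ∑ w ∈ F, ∑ v ∈ F, wwt w * wwt v * (1 / (I : ℝ) * ∑ i ∈ range I, |φ w m i - φ v m i|)
        = ∑ w ∈ F, ∑ v ∈ F, wwt w * wwt v * ∑ m ∈ range n, (1 / (I : ℝ) * ∑ i ∈ range I, |φ w m i - φ v m i|) := by
      rw [sum_comm]
      apply sum_congr rfl
      intro w _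
      rw [sum_comm]
      apply sum_congr rfl
      intro v _
      rw [mul_sum]
    rw [e1]
    have h1 : ∑ w ∈ F, ∑ v ∈ F, wwt w * wwt v * ∑ m ∈ range n, (1 / (I : ℝ) * ∑ i ∈ range I, |φ w m i - φ v m i|)
        ≤ ∑ w ∈ F, ∑ v ∈ F, (wwt w * wwt v * (|(w.sum : ℝ) - 2 * k| + |(v.sum : ℝ) - 2 * k|) * SD
          + 2 * n * (wwt w * wwt v * (((w.sum : ℝ) - 2 * k) ^ 2 / k ^ 2 + ((v.sum : ℝ) - 2 * k) ^ 2 / k ^ 2))) := by
      apply sum_le_sum
      intro w hw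
      apply sum_le_sum
      intro v hv
      have h2 := mul_le_mul_of_nonneg_left (hpair w hw v hv) (mul_nonneg (wwt_nonneg w) (wwt_nonneg v))
      linarith
    refine h1.trans ?_
    have e2 : ∑ w ∈ F, ∑ v ∈ F, (wwt w * wwt v * (|(w.sum : ℝ) - 2 * k| + |(v.sum : ℝ) - 2 * k|) * SD
          + 2 * n * (wwt w * wwt v * (((w.sum : ℝ) - 2 * k) ^ 2 / k ^ 2 + ((v.sum : ℝ) - 2 * k) ^ 2 / k ^ 2)))
        = (∑ w ∈ F, ∑ v ∈ F, wwt w * wwt v * (|(w.sum : ℝ) - 2 * k| + |(v.sum : ℝ) - 2 * k|)) * SD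
          + 2 * n * ∑ w ∈ F, ∑ v ∈ F, wwt w * wwt v * (((w.sum : ℝ) - 2 * k) ^ 2 / k ^ 2 + ((v.sum : ℝ) - 2 * k) ^ 2 / k ^ 2) := by
      rw [sum_mul, mul_sum, ← sum_add_distrib]
      apply sum_congr rfl
      intro w _
      rw [sum_mul, mul_sum, ← sum_add_distrib]
    rw [e2]
    have h2 := double_sum_le F wwt (fun w => |(w.sum : ℝ) - 2 * k|) wwt_nonneg (fun w => abs_nonneg _) hP1
    have h3 := double_sum_le F wwt (fun w => ((w.sum : ℝ) - 2 * k) ^ 2 / k ^ 2) wwt_nonneg (fun w => by positivity) hP1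
    have h4 := first_moment hk1
    have h5 : ∑ w ∈ F, wwt w * (((w.sum : ℝ) - 2 * k) ^ 2 / (k : ℝ) ^ 2) ≤ 2 / (k : ℝ) := by
      have e3 : ∑ w ∈ F, wwt w * (((w.sum : ℝ) - 2 * k) ^ 2 / (k : ℝ) ^ 2)
          = (∑ w ∈ F, wwt w * ((w.sum : ℝ) - 2 * k) ^ 2) / (k : ℝ) ^ 2 := by
        rw [sum_div]
        exact sum_congr rfl fun w _ => by ring
      rw [e3, div_le_iff₀ (by positivity)]
      refine (second_moment k).trans (le_of_eq ?_)
      field_simp
    have h6 : (∑ w ∈ F, ∑ v ∈ F, wwt w * wwt v * (|(w.sum : ℝ) - 2 * k| + |(v.sum : ℝ) - 2 * k|)) * SD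
        ≤ 2 * √ (2 * k) * SD := by
      apply mul_le_mul_of_nonneg_right _ hSD0
      linarith
    have h7 : 2 * (n : ℝ) * ∑ w ∈ F, ∑ v ∈ F, wwt w * wwt v * (((w.sum : ℝ) - 2 * k) ^ 2 / k ^ 2 + ((v.sum : ℝ) - 2 * k) ^ 2 / k ^ 2)
        ≤ 8 * (n / k) := by
      calc 2 * (n : ℝ) * ∑ w ∈ F, ∑ v ∈ F, wwt w * wwt v * (((w.sum : ℝ) - 2 * k) ^ 2 / k ^ 2 + ((v.sum : ℝ) - 2 * k) ^ 2 / k ^ 2)
          ≤ 2 * n * (2 * (2 / k)) := mul_le_mul_of_nonneg_left (by linarith) (by positivity)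
        _ = 8 * (n / k) := by ring
    linarith
  -- conclusion
  have hk1r : (n : ℝ) / k ≤ n / rt k := div_le_div_of_nonneg_left hnR hr0 hrk
  have e9 : (n : ℝ) * ((2 * Cs + 10) / rt k) = n * (2 * ε) + 10 * (n / rt k) := by
    rw [hε]; ring
  have e10 : (n : ℝ) * (1 / k + 2 * ε) = n / k + n * (2 * ε) := by ring
  rw [e10] at hsum
  rw [e9]
  linarith

end Pool.Agent.KS6_32.BD
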