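import Pool.Agent.KS6_32.BD.Main
import Pool.Graph.R_seed8.H499R2.CO.R3

/-! The two sides of the law of the boundary of an invariant set. -/

set_option autoImplicit false

namespace Pool.Agent.KS6_32.BD

open Finset Filter Topology

/-! ### Series over dyadic blocks -/

theorem summable_of_blocks {f : ℕ → ℝ} (hf : ∀ n, 0 ≤ f n)
    (h : Summable fun j : ℕ => ∑ n ∈ Ico (2 ^ j) (2 ^ (j + 1)), f n) : Summable f := by
  have key : ∀ J : ℕ, ∑ n ∈ range (2 ^ J), f n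
      = f 0 + ∑ j ∈ range J, ∑ n ∈ Ico (2 ^ j) (2 ^ (j + 1)), f n := by
    intro J
    induction J with
    | zero => simp
    | succ J ih =>
      rw [sum_range_succ, ← add_assoc, ← ih, range_eq_Ico, range_eq_Ico,
        sum_Ico_consecutive _ (Nat.zero_le _) (Nat.pow_le_pow_right (by norm_num) (Nat.le_succ J))]
  refine summable_of_sum_range_le (c := f 0 + ∑' j : ℕ, ∑ n ∈ Ico (2 ^ j) (2 ^ (j + 1)), f n) hf fun n => ?_
  have h1 : ∑ i ∈ range n, f i ≤ ∑ i ∈ range (2 ^ n), f i :=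
    sum_le_sum_of_subset_of_nonneg (fun i hi => by
      rw [mem_range] at hi ⊢
      exact hi.trans Nat.lt_two_pow_self) fun i _ _ => hf i
  rw [key n] at h1
  have h2 := h.sum_le_tsum (range n) fun j _ => sum_nonneg fun i _ => hf i
  linarith

theorem wt_nonneg (B : Set ℕ) (σ : ℝ) (n : ℕ) :
    0 ≤ B.indicator (fun n : ℕ => 1 / ((n : ℝ) * Real.log n ^ σ)) n := by
  apply Set.indicator_nonneg
  intro m _
  have := Real.log_natCast_nonneg m
  positivity

open Classical in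
theorem block_le (B : Set ℕ) {σ : ℝ} (hσ : 0 ≤ σ) {j : ℕ} (hj : 1 ≤ j) :
    ∑ n ∈ Ico (2 ^ j) (2 ^ (j + 1)), B.indicator (fun n : ℕ => 1 / ((n : ℝ) * Real.log n ^ σ)) n
      ≤ (#{n ∈ Icc 1 (2 ^ (j + 1)) | n ∈ B} : ℝ) * (1 / (2 ^ j * (j * Real.log 2) ^ σ)) := by
  have hj0 : (0 : ℝ) < j := by exact_mod_cast hj
  have l2 := Real.log_two_gt_d9
  have hlog0 : 0 < (j : ℝ) * Real.log 2 := by positivity
  have h1 : ∀ n ∈ Ico (2 ^ j) (2 ^ (j + 1)), B.indicator (fun n : ℕ => 1 / ((n : ℝ) * Real.log n ^ σ)) n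
      ≤ if n ∈ B then 1 / (2 ^ j * (j * Real.log 2) ^ σ) else 0 := by
    intro n hn
    rw [mem_Ico] at hn
    by_cases hB : n ∈ B
    · rw [Set.indicator_of_mem hB, if_pos hB]
      have h2 : (2 : ℝ) ^ j ≤ n := by exact_mod_cast hn.1
      have h3 : (j : ℝ) * Real.log 2 ≤ Real.log n := by
        have := Real.log_le_log (by positivity) h2
        rwa [Real.log_pow] at this
      apply one_div_le_one_div_of_le (by positivity)
      exact mul_le_mul h2 (Real.rpow_le_rpow hlog0.le h3 hσ) (by positivity) (by positivity)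
    · rw [Set.indicator_of_notMem hB, if_neg hB]
  refine (sum_le_sum h1).trans ?_
  rw [← sum_filter, sum_const, nsmul_eq_mul]
  apply mul_le_mul_of_nonneg_right _ (by positivity)
  have h2 : (Ico (2 ^ j) (2 ^ (j + 1))).filter (· ∈ B) ⊆ {n ∈ Icc 1 (2 ^ (j + 1)) | n ∈ B} := by
    intro n hn
    rw [mem_filter, mem_Ico] at hn
    rw [mem_filter, mem_Icc]
    exact ⟨⟨(Nat.one_le_two_pow).trans hn.1.1, hn.1.2.le⟩, hn.2⟩
  exact_mod_cast card_le_card h2

open Classical in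
/-- convergence from a count with the rate `√ (log log N / log N)` -/
theorem conv_of_count {B : Set ℕ} {K : ℝ} (hK : 0 ≤ K) (hB : ∀ N : ℕ, 16 ≤ N →
    (#{n ∈ Icc 1 N | n ∈ B} : ℝ) ≤ K * √ (Real.log (Real.log N) / Real.log N) * N) {σ : ℝ} (hσ : 1 / 2 < σ) :
    Summable (B.indicator fun n : ℕ => 1 / ((n : ℝ) * Real.log n ^ σ)) := by
  set η : ℝ := min ((σ - 1 / 2) / 2) (1 / 4) with hη
  have hη0 : 0 < η := lt_min (by linarith) (by norm_num)
  have hη1 : η ≤ (σ - 1 / 2) / 2 := min_le_left _ _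
  have hη2 : η ≤ 1 / 4 := min_le_right _ _
  have l2 := Real.log_two_gt_d9
  apply summable_of_blocks (wt_nonneg B σ)
  have hs : Summable fun j : ℕ => (2 * K / √ (2 * η) * Real.log 2 ^ (-σ + (η - 1 / 2))) * (j : ℝ) ^ (-σ + (η - 1 / 2)) :=
    (Real.summable_nat_rpow.2 (by linarith)).mul_left _
  refine hs.of_norm_bounded_eventually_nat ?_
  filter_upwards [eventually_ge_atTop 4] with j hj
  have hj0 : (0 : ℝ) < j := by
    have : 0 < j := by omega
    exact_mod_cast this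
  have hj1 : (4 : ℝ) ≤ j := by exact_mod_cast hj
  rw [Real.norm_of_nonneg (sum_nonneg fun n _ => wt_nonneg B σ n)]
  refine (block_le B (by linarith) (by omega)).trans ?_
  have hN : 16 ≤ 2 ^ (j + 1) := by
    calc 16 = 2 ^ 4 := by norm_num
      _ ≤ 2 ^ (j + 1) := Nat.pow_le_pow_right (by norm_num) (by omega)
  have h1 := hB _ hN
  set y : ℝ := Real.log ((2 ^ (j + 1) : ℕ) : ℝ) with hy
  have hyj : y = (j + 1) * Real.log 2 := by
    rw [hy]; push_cast; rw [Real.log_pow]; push_cast; ring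
  have hjl : 0 < (j : ℝ) * Real.log 2 := by positivity
  have hy1 : (j : ℝ) * Real.log 2 ≤ y := by rw [hyj]; nlinarith
  have hy0 : 0 < y := by linarith
  have h2 : √ (Real.log y / y) ≤ (j * Real.log 2) ^ (η - 1 / 2) / √ (2 * η) := by
    have h3 : Real.log y ≤ y ^ (2 * η) / (2 * η) := Real.log_le_rpow_div hy0.le (by positivity)
    have h4 : Real.log y / y ≤ (y ^ (η - 1 / 2)) ^ 2 / (2 * η) := by
      rw [div_le_iff₀ hy0]
      refine h3.trans (le_of_eq ?_)
      rw [← Real.rpow_natCast (y ^ (η - 1 / 2)) 2, ← Real.rpow_mul hy0.le, div_mul_eq_mul_div]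
      congr 1
      nth_rewrite 3 [← Real.rpow_one y]
      rw [← Real.rpow_add hy0]
      congr 1
      push_cast
      ring
    calc √ (Real.log y / y) ≤ √ ((y ^ (η - 1 / 2)) ^ 2 / (2 * η)) := Real.sqrt_le_sqrt h4
      _ = y ^ (η - 1 / 2) / √ (2 * η) := by
          rw [Real.sqrt_div (by positivity), Real.sqrt_sq (by positivity)]
      _ ≤ (j * Real.log 2) ^ (η - 1 / 2) / √ (2 * η) := by
          apply div_le_div_of_nonneg_right _ (Real.sqrt_nonneg _)
          exact Real.rpow_le_rpow_of_nonpos hjl hy1 (by linarith)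
  have h3 : (#{n ∈ Icc 1 (2 ^ (j + 1)) | n ∈ B} : ℝ) ≤ K * ((j * Real.log 2) ^ (η - 1 / 2) / √ (2 * η)) * (2 * 2 ^ j) := by
    refine h1.trans ?_
    push_cast
    rw [pow_succ (2 : ℝ) j, mul_comm ((2 : ℝ) ^ j) 2]
    apply mul_le_mul_of_nonneg_right _ (by positivity)
    exact mul_le_mul_of_nonneg_left h2 hK
  calc (#{n ∈ Icc 1 (2 ^ (j + 1)) | n ∈ B} : ℝ) * (1 / (2 ^ j * (j * Real.log 2) ^ σ))
      ≤ K * ((j * Real.log 2) ^ (η - 1 / 2) / √ (2 * η)) * (2 * 2 ^ j) * (1 / (2 ^ j * (j * Real.log 2) ^ σ)) :=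
        mul_le_mul_of_nonneg_right h3 (by positivity)
    _ = (2 * K / √ (2 * η)) * ((j * Real.log 2) ^ (-σ) * (j * Real.log 2) ^ (η - 1 / 2)) := by
        rw [Real.rpow_neg hjl.le]
        field_simp
    _ = (2 * K / √ (2 * η)) * (j * Real.log 2) ^ (-σ + (η - 1 / 2)) := by rw [← Real.rpow_add hjl]
    _ = 2 * K / √ (2 * η) * Real.log 2 ^ (-σ + (η - 1 / 2)) * (j : ℝ) ^ (-σ + (η - 1 / 2)) := by
        rw [Real.mul_rpow hj0.le (by linarith)]; ring

/-- `∑ 1 / (j (log (j + 2)) ^ (1 + ε))` converges -/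
theorem summable_log {ε : ℝ} (hε : 0 < ε) : Summable fun j : ℕ => 1 / ((j : ℝ) * Real.log (j + 2) ^ (1 + ε)) := by
  have l2 := Real.log_two_gt_d9
  rw [← summable_condensed_iff_of_nonneg]
  · have hs : Summable fun k : ℕ => (Real.log 2 ^ (-(1 + ε))) * (k : ℝ) ^ (-(1 + ε)) :=
      (Real.summable_nat_rpow.2 (by linarith)).mul_left _
    refine hs.of_norm_bounded_eventually_nat ?_
    filter_upwards [eventually_ge_atTop 1] with k hk
    have hk0 : (0 : ℝ) < k := by exact_mod_cast hk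
    have hkl : 0 < (k : ℝ) * Real.log 2 := by positivity
    have h1 : (k : ℝ) * Real.log 2 ≤ Real.log (2 ^ k + 2) := by
      rw [← Real.log_pow]
      exact Real.log_le_log (by positivity) (by linarith)
    have h2 : 0 < Real.log (2 ^ k + 2) := by linarith
    push_cast
    rw [Real.norm_of_nonneg (by positivity)]
    have e : (2 : ℝ) ^ k * (1 / (2 ^ k * Real.log (2 ^ k + 2) ^ (1 + ε))) = 1 / Real.log (2 ^ k + 2) ^ (1 + ε) := by
      field_simp
    rw [e]
    calc 1 / Real.log (2 ^ k + 2) ^ (1 + ε) ≤ 1 / (k * Real.log 2) ^ (1 + ε) := by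
          apply one_div_le_one_div_of_le (by positivity)
          exact Real.rpow_le_rpow hkl.le h1 (by linarith)
      _ = Real.log 2 ^ (-(1 + ε)) * (k : ℝ) ^ (-(1 + ε)) := by
          rw [Real.rpow_neg (by linarith), Real.rpow_neg hk0.le, Real.mul_rpow hk0.le (by linarith)]
          field_simp
  · intro n
    have : (0 : ℝ) ≤ Real.log ((n : ℝ) + 2) := Real.log_nonneg (by
      have := Nat.cast_nonneg (α := ℝ) n
      linarith)
    positivity
  · intro m n hm hmn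
    have hm0 : (0 : ℝ) < m := by exact_mod_cast hm
    have hmn' : (m : ℝ) ≤ n := by exact_mod_cast hmn
    have h1 : 0 < Real.log ((m : ℝ) + 2) := Real.log_pos (by linarith)
    have h2 : Real.log ((m : ℝ) + 2) ≤ Real.log ((n : ℝ) + 2) := Real.log_le_log (by linarith) (by linarith)
    apply one_div_le_one_div_of_le (by positivity)
    exact mul_le_mul hmn' (Real.rpow_le_rpow h1.le h2 (by linarith)) (by positivity) (by positivity)

open Classical in
/-- convergence from a small count -/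
theorem conv_of_bound {B : Set ℕ} {ε : ℝ} (hε : 0 < ε) (hB : ∀ᶠ X : ℕ in atTop,
    (#{n ∈ Icc 1 X | n ∈ B} : ℝ) ≤ X / (√ (Real.log X) * Real.log (Real.log X) ^ (1 + ε))) :
    Summable (B.indicator fun n : ℕ => 1 / ((n : ℝ) * Real.log n ^ ((1 : ℝ) / 2))) := by
  have l2 := Real.log_two_gt_d9
  have l2' := Real.log_two_lt_d9
  apply summable_of_blocks (wt_nonneg B _)
  have hs : Summable fun j : ℕ => (2 * 2 ^ (1 + ε) / Real.log 2) * (1 / ((j : ℝ) * Real.log (j + 2) ^ (1 + ε))) :=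
    (summable_log hε).mul_left _
  refine hs.of_norm_bounded_eventually_nat ?_
  have ht : Tendsto (fun j : ℕ => 2 ^ (j + 1)) atTop atTop :=
    (tendsto_pow_atTop_atTop_of_one_lt (by norm_num)).comp (tendsto_add_atTop_nat 1)
  filter_upwards [eventually_ge_atTop 16, ht.eventually hB] with j hj hBj
  have hj1 : (16 : ℝ) ≤ j := by exact_mod_cast hj
  have hj0 : (0 : ℝ) < j := by linarith
  rw [Real.norm_of_nonneg (sum_nonneg fun n _ => wt_nonneg B _ n)]
  refine (block_le B (by norm_num) (by omega)).trans ?_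
  set y : ℝ := Real.log ((2 ^ (j + 1) : ℕ) : ℝ) with hy
  have hyj : y = (j + 1) * Real.log 2 := by
    rw [hy]; push_cast; rw [Real.log_pow]; push_cast; ring
  have hjl : 0 < (j : ℝ) * Real.log 2 := by positivity
  have hy1 : (j : ℝ) * Real.log 2 ≤ y := by rw [hyj]; nlinarith
  have hy0 : 0 < y := by linarith
  have hlog : Real.log ((j : ℝ) + 2) / 2 ≤ Real.log y := by
    have h1 : (j : ℝ) + 2 ≤ y ^ 2 := by
      rw [hyj]
      have : 0.6 * ((j : ℝ) + 1) ≤ (j + 1) * Real.log 2 := by nlinarith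
      nlinarith
    have h2 := Real.log_le_log (by linarith) h1
    rw [Real.log_pow] at h2
    push_cast at h2
    linarith
  have hl0 : 0 < Real.log ((j : ℝ) + 2) := Real.log_pos (by linarith)
  have hsq : 0 < √ (j * Real.log 2) := Real.sqrt_pos.2 hjl
  have h1 : (#{n ∈ Icc 1 (2 ^ (j + 1)) | n ∈ B} : ℝ) ≤
      (2 * 2 ^ j) / (√ (j * Real.log 2) * (Real.log ((j : ℝ) + 2) / 2) ^ (1 + ε)) := by
    refine hBj.trans ?_
    push_cast
    rw [pow_succ (2 : ℝ) j, mul_comm ((2 : ℝ) ^ j) 2]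
    apply div_le_div_of_nonneg_left (by positivity) (by positivity)
    apply mul_le_mul (Real.sqrt_le_sqrt hy1) _ (by positivity) (Real.sqrt_nonneg _)
    exact Real.rpow_le_rpow (by positivity) hlog (by linarith)
  calc (#{n ∈ Icc 1 (2 ^ (j + 1)) | n ∈ B} : ℝ) * (1 / (2 ^ j * (j * Real.log 2) ^ ((1 : ℝ) / 2)))
      ≤ (2 * 2 ^ j) / (√ (j * Real.log 2) * (Real.log ((j : ℝ) + 2) / 2) ^ (1 + ε)) * (1 / (2 ^ j * (j * Real.log 2) ^ ((1 : ℝ) / 2))) :=
        mul_le_mul_of_nonneg_right h1 (by positivity)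
    _ = 2 * 2 ^ (1 + ε) / Real.log 2 * (1 / (j * Real.log (j + 2) ^ (1 + ε))) := by
        rw [← Real.sqrt_eq_rpow, Real.div_rpow hl0.le (by norm_num)]
        have e : √ ((j : ℝ) * Real.log 2) * √ (j * Real.log 2) = j * Real.log 2 := Real.mul_self_sqrt hjl.le
        field_simp
        rw [sq, e]

/-! ### The boundary -/

open Pool.Agent.H499R2.ND Pool.Agent.H499R2.CO Pool.Agent.W41.FU Pool.Agent.W41 Pool.Agent.Y965.SI

/-- exactly one of the neighbours `s n`, `s (n + 1)` belongs to `S` -/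
def Bd (s : ℤ) (S : Set ℤ) : Set ℕ := {n : ℕ | 1 ≤ n ∧ ¬ (s * n ∈ S ↔ s * (n + 1) ∈ S)}

/-- the trajectories of the neighbours `s n`, `s (n + 1)` do not meet -/
def Ap (s : ℤ) : Set ℕ := {n : ℕ | 1 ≤ n ∧ s * n ∉ Kc (s * (n + 1))}

theorem Bd_sub_Ap {s : ℤ} {S : Set ℤ} (hS : Inv 1 S) : Bd s S ⊆ Ap s := by
  rintro n ⟨h1, h2⟩
  refine ⟨h1, fun h3 => h2 ?_⟩
  exact inv_Kc (fun x => hS x) h3

open Classical in
theorem Ap_count : ∃ K : ℝ, 0 < K ∧ ∀ s : ℤ, (s = 1 ∨ s = -1) → ∀ N : ℕ, 16 ≤ N →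
    (#{n ∈ Icc 1 N | n ∈ Ap s} : ℝ) ≤ K * √ (Real.log (Real.log N) / Real.log N) * N := by
  obtain ⟨C, hC, h⟩ := pair_count
  refine ⟨C * √ (1 + Real.log 2), by
    have := Real.log_two_gt_d9
    positivity, ?_⟩
  intro s hs N hN
  have hs2 : s % 2 = 1 := by rcases hs with rfl | rfl <;> norm_num
  have hss : s * s = 1 := by rcases hs with rfl | rfl <;> norm_num
  have h1 := h N hN s hs2 0 s
  have e : |(s : ℝ)| = 1 := by rcases hs with rfl | rfl <;> norm_num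
  rw [e] at h1
  have hlog0 : 0 ≤ Real.log (Real.log N) / Real.log N := by
    have h3 : (2.77 : ℝ) ≤ Real.log N := by
      have h2 : (16 : ℝ) ≤ N := by exact_mod_cast hN
      have := Real.log_le_log (by norm_num) h2
      rw [show (16 : ℝ) = 2 ^ 4 by norm_num, Real.log_pow] at this
      have l2 := Real.log_two_gt_d9
      push_cast at this
      linarith
    exact div_nonneg (Real.log_nonneg (by linarith)) (by linarith)
  have e2 : √ ((1 + ((0 : ℕ) : ℝ) ^ 2 + Real.log (1 + 1)) * (Real.log (Real.log N) / Real.log N))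
      = √ (1 + Real.log 2) * √ (Real.log (Real.log N) / Real.log N) := by
    rw [← Real.sqrt_mul (by
      have := Real.log_two_gt_d9
      positivity)]
    norm_num
  rw [e2] at h1
  refine le_trans ?_ (h1.trans (le_of_eq (by ring)))
  have hsub : {n ∈ Icc 1 N | n ∈ Ap s} ⊆ {n ∈ Icc 1 N | surv s (Nat.log 2 N / 4) (0, s) (n : ℕ)} := by
    intro n hn
    rw [mem_filter] at hn ⊢
    refine ⟨hn.1, ?_⟩
    by_contra hcon
    obtain ⟨t, -, ht⟩ := coal hs2 _ 0 s n hcon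
    apply hn.2.2
    apply merge_of_coalT (t := t)
    have e3 : (3 : ℤ) ^ 0 * n + s * s = n + 1 := by rw [hss]; ring
    rw [e3] at ht
    rw [← Tz_sign_iter hs, ← Tz_sign_iter hs, ht]
  exact_mod_cast card_le_card hsub

/-- convergence -/
theorem Ap_conv {s : ℤ} (hs : s = 1 ∨ s = -1) {σ : ℝ} (hσ : 1 / 2 < σ) :
    Summable ((Ap s).indicator fun n : ℕ => 1 / ((n : ℝ) * Real.log n ^ σ)) := by
  obtain ⟨K, hK, h⟩ := Ap_count
  exact conv_of_count hK.le (h s hs) hσ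

theorem conv_mono {A B : Set ℕ} (h : A ⊆ B) {σ : ℝ}
    (hB : Summable (B.indicator fun n : ℕ => 1 / ((n : ℝ) * Real.log n ^ σ))) :
    Summable (A.indicator fun n : ℕ => 1 / ((n : ℝ) * Real.log n ^ σ)) := by
  refine Summable.of_nonneg_of_le (wt_nonneg A σ) (fun n => ?_) hB
  apply Set.indicator_le_indicator_of_subset h
  intro m
  have := Real.log_natCast_nonneg m
  positivity

/-- comparison of exponents -/
theorem conv_exp {B : Set ℕ} {σ τ : ℝ} (hst : σ ≤ τ)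
    (hB : Summable (B.indicator fun n : ℕ => 1 / ((n : ℝ) * Real.log n ^ σ))) :
    Summable (B.indicator fun n : ℕ => 1 / ((n : ℝ) * Real.log n ^ τ)) := by
  refine hB.of_norm_bounded_eventually_nat ?_
  filter_upwards [eventually_ge_atTop 3] with n hn
  rw [Real.norm_of_nonneg (wt_nonneg B τ n)]
  apply Set.indicator_le_indicator
  have h3 : (3 : ℝ) ≤ n := by exact_mod_cast hn
  have h1 : 1 ≤ Real.log n := by
    rw [Real.le_log_iff_exp_le (by linarith)]
    have := Real.exp_one_lt_d9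
    linarith
  apply one_div_le_one_div_of_le (by positivity)
  apply mul_le_mul_of_nonneg_left _ (by linarith)
  exact Real.rpow_le_rpow_of_exponent_le h1 hst

open Classical in
/-- the variation is the sum over the boundary -/
theorem UU_nat (s : ℤ) (S : Set ℤ) {M M' : ℕ} (hM : 1 ≤ M) : UU (ind s S) M M'
    = ∑ n ∈ (Ico M M').filter (· ∈ Bd s S), 1 / ((n : ℝ) * √ (Real.log n)) := by
  unfold UU AS
  rw [Int.ceil_natCast, Int.ceil_natCast, sum_filter]
  refine sum_bij' (fun x _ => x.toNat) (fun m _ => (m : ℤ)) ?_ ?_ ?_ ?_ ?_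
  · intro x hx; rw [mem_Ico] at hx ⊢; omega
  · intro m hm; rw [mem_Ico] at hm ⊢; omega
  · intro x hx; rw [mem_Ico] at hx; omega
  · intro m _; simp
  · intro x hx
    rw [mem_Ico] at hx
    have e : ((x.toNat : ℕ) : ℤ) = x := by omega
    have e2 : ((x.toNat : ℕ) : ℝ) = x := by exact_mod_cast e
    rw [e2]
    have h1 : (x.toNat ∈ Bd s S) ↔ ¬ (s * x ∈ S ↔ s * (x + 1) ∈ S) := by
      unfold Bd
      rw [Set.mem_ofPred_eq, e]
      constructor
      · exact fun h => h.2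
      · exact fun h => ⟨by omega, h⟩
    have h2 : vr (ind s S) x = if x.toNat ∈ Bd s S then 1 else 0 := by
      unfold vr ind
      by_cases h3 : s * x ∈ S <;> by_cases h4 : s * (x + 1) ∈ S <;> simp [h1, h3, h4]
    rw [h2]
    split_ifs <;> simp

open Classical in
/-- THE LOWER BOUND, for natural numbers and both signs. -/
theorem lower_nat {δ₁ : ℝ} (hδ₁ : 0 < δ₁) : ∃ c : ℝ, 0 < c ∧ ∀ M : ℕ, ∃ M' : ℕ, ∀ s : ℤ, (s = 1 ∨ s = -1) →
    ∀ S : Set ℤ, Inv 1 S → ∀ D : ℝ, HD s S D → δ₁ ≤ D → D ≤ 1 - δ₁ →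
    c ≤ ∑ n ∈ (Ico M M').filter (· ∈ Bd s S), 1 / ((n : ℝ) * √ (Real.log n)) := by
  obtain ⟨c1, hc1, H1⟩ := lower (s := 1) (Or.inl rfl) hδ₁
  obtain ⟨c2, hc2, H2⟩ := lower (s := -1) (Or.inr rfl) hδ₁
  refine ⟨min c1 c2, lt_min hc1 hc2, ?_⟩
  intro M
  obtain ⟨M1, h1⟩ := H1 ((max M 1 : ℕ) : ℝ)
  obtain ⟨M2, h2⟩ := H2 ((max M 1 : ℕ) : ℝ)
  refine ⟨max ⌈M1⌉₊ ⌈M2⌉₊, ?_⟩
  have hmax : max ((max M 1 : ℕ) : ℝ) 0 = ((max M 1 : ℕ) : ℝ) := max_eq_left (Nat.cast_nonneg _)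
  rw [hmax] at h1 h2
  have key : ∀ s : ℤ, (s = 1 ∨ s = -1) → ∀ S : Set ℤ, Inv 1 S → ∀ D : ℝ, HD s S D → δ₁ ≤ D → D ≤ 1 - δ₁ →
      min c1 c2 ≤ UU (ind s S) ((max M 1 : ℕ) : ℝ) ((max ⌈M1⌉₊ ⌈M2⌉₊ : ℕ) : ℝ) := by
    rintro s (rfl | rfl) S hS D hD hD1 hD2
    · refine (min_le_left _ _).trans ((h1 S hS D hD hD1 hD2).trans ?_)
      apply UU_mono _ (Nat.cast_nonneg _) le_rfl
      refine (Nat.le_ceil M1).trans ?_
      exact_mod_cast le_max_left _ _
    · refine (min_le_right _ _).trans ((h2 S hS D hD hD1 hD2).trans ?_)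
      apply UU_mono _ (Nat.cast_nonneg _) le_rfl
      refine (Nat.le_ceil M2).trans ?_
      exact_mod_cast le_max_right _ _
  intro s hs S hS D hD hD1 hD2
  refine (key s hs S hS D hD hD1 hD2).trans ?_
  rw [UU_nat s S (le_max_right _ _)]
  apply sum_le_sum_of_subset_of_nonneg
  · intro n hn
    rw [mem_filter, mem_Ico] at hn ⊢
    exact ⟨⟨(le_max_left _ _).trans hn.1.1, hn.1.2⟩, hn.2⟩
  · intro n _ _
    positivity

open Classical in
theorem Bd_not_conv {s : ℤ} (hs : s = 1 ∨ s = -1) {S : Set ℤ} (hS : Inv 1 S) (h1 : ∃ x ∈ S, 0 < s * x)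
    (h2 : ∃ x ∉ S, 0 < s * x) : ¬ Summable ((Bd s S).indicator fun n : ℕ => 1 / ((n : ℝ) * Real.log n ^ ((1 : ℝ) / 2))) := by
  intro hsum
  obtain ⟨D, -, -, hD⟩ := dens_side (d := 1) odd_one (by norm_num) hs hS
  obtain ⟨x, hx, hx0⟩ := h1
  obtain ⟨y, hy, hy0⟩ := h2
  have hD0 := one_pos hs hS hx hx0 hD
  have hD1 := one_lt hs hS hy hy0 hD
  obtain ⟨c, hc, H⟩ := lower_nat (show 0 < min D (1 - D) from lt_min hD0 (by linarith))
  rw [summable_iff_vanishing_norm] at hsum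
  obtain ⟨F, hF⟩ := hsum c hc
  obtain ⟨M, hM⟩ : ∃ M : ℕ, ∀ n ∈ F, n < M := ⟨F.sup id + 1, fun n hn => by
    have := le_sup (f := id) hn
    simp only [id] at this
    omega⟩
  obtain ⟨M', hM'⟩ := H M
  have h3 := hM' s hs S hS D hD (min_le_left _ _) (by linarith [min_le_right D (1 - D)])
  have h4 := hF (Ico M M') (by
    rw [Finset.disjoint_left]
    intro n hn hn'
    rw [mem_Ico] at hn
    have := hM n hn'
    omega)
  have h5 : ∑ n ∈ Ico M M', (Bd s S).indicator (fun n : ℕ => 1 / ((n : ℝ) * Real.log n ^ ((1 : ℝ) / 2))) n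
      = ∑ n ∈ (Ico M M').filter (· ∈ Bd s S), 1 / ((n : ℝ) * √ (Real.log n)) := by
    rw [sum_filter]
    apply sum_congr rfl
    intro n _
    by_cases hn : n ∈ Bd s S
    · rw [Set.indicator_of_mem hn, if_pos hn, Real.sqrt_eq_rpow]
    · rw [Set.indicator_of_notMem hn, if_neg hn]
  rw [h5] at h4
  have h6 := le_abs_self (∑ n ∈ (Ico M M').filter (· ∈ Bd s S), 1 / ((n : ℝ) * √ (Real.log n)))
  rw [Real.norm_eq_abs] at h4
  linarith

/-- THE CRITICAL EXPONENT IS `1 / 2`. -/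
theorem Bd_law {s : ℤ} (hs : s = 1 ∨ s = -1) {S : Set ℤ} (hS : Inv 1 S) (h1 : ∃ x ∈ S, 0 < s * x)
    (h2 : ∃ x ∉ S, 0 < s * x) (σ : ℝ) :
    Summable ((Bd s S).indicator fun n : ℕ => 1 / ((n : ℝ) * Real.log n ^ σ)) ↔ 1 / 2 < σ := by
  constructor
  · intro h
    by_contra hcon
    exact Bd_not_conv hs hS h1 h2 (conv_exp (not_lt.1 hcon) h)
  · intro h
    exact conv_mono (Bd_sub_Ap hS) (Ap_conv hs h)

/-- neighbours whose trajectories do not meet -/
theorem Ap_law {s : ℤ} (hs : s = 1 ∨ s = -1) {a b : ℤ} (ha : 0 < s * a) (hb : 0 < s * b) (hab : b ∉ Kc a) (σ : ℝ) :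
    Summable ((Ap s).indicator fun n : ℕ => 1 / ((n : ℝ) * Real.log n ^ σ)) ↔ 1 / 2 < σ := by
  constructor
  · intro h
    exact (Bd_law hs (Kc_inv a) ⟨a, Kc_self a, ha⟩ ⟨b, hab, hb⟩ σ).1 (conv_mono (Bd_sub_Ap (Kc_inv a)) h)
  · exact fun h => Ap_conv hs h

open Classical in
/-- many boundary points -/
theorem Bd_many {s : ℤ} (hs : s = 1 ∨ s = -1) {S : Set ℤ} (hS : Inv 1 S) (h1 : ∃ x ∈ S, 0 < s * x)
    (h2 : ∃ x ∉ S, 0 < s * x) {ε : ℝ} (hε : 0 < ε) : ∃ᶠ X : ℕ in atTop,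
      X / (√ (Real.log X) * Real.log (Real.log X) ^ (1 + ε)) < (#{n ∈ Icc 1 X | n ∈ Bd s S} : ℝ) := by
  intro hcon
  apply Bd_not_conv hs hS h1 h2
  apply conv_of_bound hε
  filter_upwards [hcon] with X hX
  exact not_lt.1 hX

end Pool.Agent.KS6_32.BD
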