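import Pool.Agent.KS6_32.BD.StageE

/-! Iteration of the stages, upwards through all scales. -/

set_option autoImplicit false

namespace Pool.Agent.KS6_32.BD

open Pool.Agent.H320R2.PD Pool.Agent.H499R2.ND Pool.Agent.H499R2.CO Pool.Agent.W41.FU Finset
open Pool.Agent.Y965.SI

/-- mean energy over `k` levels -/
noncomputable def me (f : ℤ → ℝ) (I k : ℕ) (A : ℝ) : ℝ := (∑ m ∈ range k, en f I (A * 2 ^ m)) / k

/-- the weighted variation of `f` on `[a, b)` -/
noncomputable def UU (f : ℤ → ℝ) (a b : ℝ) : ℝ := AS (fun n => vr f n / (n * √ (Real.log n))) a b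

theorem UU_nonneg (f : ℤ → ℝ) {a b : ℝ} (ha : 0 ≤ a) : 0 ≤ UU f a b := by
  unfold UU
  apply AS_nonneg
  intro x hx
  have : (0 : ℝ) ≤ x := ha.trans hx
  exact div_nonneg (vr_nonneg f x) (by positivity)

theorem UU_mono (f : ℤ → ℝ) {a b c d : ℝ} (hc : 0 ≤ c) (h1 : c ≤ a) (h2 : b ≤ d) : UU f a b ≤ UU f c d := by
  unfold UU
  apply AS_mono_set _ h1 h2
  intro x hx
  have : (0 : ℝ) ≤ x := hc.trans hx
  exact div_nonneg (vr_nonneg f x) (by positivity)

theorem log3_bounds : 1.09 ≤ Real.log 3 ∧ Real.log 3 ≤ 1.11 := by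
  obtain ⟨h1, h2⟩ := log43
  have h3 := Real.log_two_gt_d9
  have h4 := Real.log_two_lt_d9
  have h5 := log3_le
  have h6 := log3_ge
  constructor <;> linarith

theorem rt_ge_one {k : ℕ} (hk : 1 ≤ k) : 1 ≤ rt k := by
  by_contra hcon
  push Not at hcon
  have h1 : rt k ^ 4 < 1 ^ 4 := pow_lt_pow_left₀ hcon (rt_nonneg k) (by norm_num)
  have h2 := rt_pow k
  have h3 : (1 : ℝ) ≤ k := by exact_mod_cast hk
  linarith

/-- one stage downwards -/
theorem step {d : ℤ} (hd : Odd d) (hd3 : IsCoprime d 3) (hdd : d * d = 1) :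
    ∃ C : ℝ, 0 < C ∧ ∀ k : ℕ, 100 ≤ k → ∀ f : ℤ → ℝ, InvF d f → ∀ I : ℕ, 1 ≤ I → ∀ A L : ℝ, 0 < A →
      L ≤ Real.log A → Real.log A ≤ 17 * L → 28 * (k : ℝ) ≤ L → 10 * (k : ℝ) ≤ L - Real.log I →
      me f I k (A * 3 ^ k / 4 ^ k) - (C / rt k + 23 * √ (20 * L / k) * UU f (Real.exp (L / 2)) (Real.exp (20 * L)))
        ≤ me f I k A := by
  obtain ⟨Cs, hCs, hst⟩ := stage_en hd hd3 hdd
  refine ⟨Cs + 42, by positivity, ?_⟩
  intro k hk f hf I hI A L hA hL1 hL2 hkL hIL
  have hk1 : 1 ≤ k := by omega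
  have hk0 : (0 : ℝ) < k := by exact_mod_cast hk1
  have hk100 : (100 : ℝ) ≤ k := by exact_mod_cast hk
  have hI0 : (0 : ℝ) < I := by exact_mod_cast hI
  have hL0 : 0 < L := by linarith
  obtain ⟨l31, l32⟩ := log3_bounds
  have l21 := Real.log_two_gt_d9
  have l22 := Real.log_two_lt_d9
  have hr1 := rt_ge_one hk1
  have hr0 : 0 < rt k := by linarith
  have h1 := hst k hk f hf I hI A hA (by
    rw [Real.log_div hA.ne' hI0.ne']; linarith) k
  set B : ℝ := A * 3 ^ k / 8 ^ k with hB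
  have hB0 : 0 < B := by positivity
  have hlogB : Real.log B = Real.log A + k * Real.log 3 - k * (3 * Real.log 2) := by
    rw [hB, Real.log_div (by positivity) (by positivity), Real.log_mul hA.ne' (by positivity), Real.log_pow, Real.log_pow]
    have : Real.log 8 = 3 * Real.log 2 := by
      rw [show (8 : ℝ) = 2 ^ (3 : ℕ) by norm_num, Real.log_pow]; push_cast; ring
    rw [this]
  have hlB : Real.log A - k ≤ Real.log B := by
    rw [hlogB]
    nlinarith
  have hB1 : 1 ≤ B := by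
    have : 0 ≤ Real.log B := by linarith
    by_contra hcon
    push Not at hcon
    have := Real.log_neg hB0 hcon
    linarith
  have h2 := dl_sum hf.1 (f_two hf) hI hB1 (4 * k)
  have hIB : (I : ℝ) / B ≤ 1 := by
    rw [div_le_one hB0]
    rw [← Real.log_le_log_iff hI0 hB0]
    linarith
  -- the weights
  have hup : Real.log (B * 2 ^ (4 * k + 1)) ≤ 20 * L := by
    rw [Real.log_mul hB0.ne' (by positivity), Real.log_pow, hlogB]
    push_cast
    nlinarith
  have hlo : Real.exp (L / 2) ≤ B := by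
    rw [← Real.le_log_iff_exp_le hB0]
    linarith
  have hW : AS (fun n => vr f n / n) B (B * 2 ^ (4 * k + 1)) ≤ √ (20 * L) * UU f (Real.exp (L / 2)) (Real.exp (20 * L)) := by
    have h3 : AS (fun n => vr f n / n) B (B * 2 ^ (4 * k + 1))
        ≤ AS (fun n => √ (20 * L) * (vr f n / (n * √ (Real.log n)))) B (B * 2 ^ (4 * k + 1)) := by
      apply AS_mono
      intro x hx1 hx2
      have hx : Real.exp (L / 2) ≤ x := hlo.trans hx1
      have hx0 : (0 : ℝ) < x := lt_of_lt_of_le (Real.exp_pos _) hx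
      have hlx : L / 2 ≤ Real.log x := by rwa [Real.le_log_iff_exp_le hx0]
      have hlx2 : Real.log x ≤ 20 * L := (Real.log_le_log hx0 hx2.le).trans hup
      have hs0 : 0 < √ (Real.log x) := Real.sqrt_pos.2 (by linarith)
      have hs : √ (Real.log x) ≤ √ (20 * L) := Real.sqrt_le_sqrt hlx2
      have e : √ (20 * L) * (vr f x / (x * √ (Real.log x))) = (√ (20 * L) / √ (Real.log x)) * (vr f x / x) := by
        field_simp
      rw [e]
      have h4 : 1 ≤ √ (20 * L) / √ (Real.log x) := by rwa [one_le_div hs0]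
      exact le_mul_of_one_le_left (div_nonneg (vr_nonneg f x) hx0.le) h4
    rw [AS_const_mul] at h3
    refine h3.trans ?_
    apply mul_le_mul_of_nonneg_left _ (Real.sqrt_nonneg _)
    have h5 : B * 2 ^ (4 * k + 1) ≤ Real.exp (20 * L) := by
      rwa [← Real.log_le_iff_le_exp (by positivity)]
    exact UU_mono f (Real.exp_pos _).le hlo h5
  have hU0 : 0 ≤ UU f (Real.exp (L / 2)) (Real.exp (20 * L)) := UU_nonneg f (Real.exp_pos _).le
  set U := UU f (Real.exp (L / 2)) (Real.exp (20 * L)) with hU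
  have e4 : k + 3 * k = 4 * k := by ring
  rw [e4] at h1
  set SD := ∑ j ∈ range (4 * k), dl f I (B * 2 ^ j) with hSD
  have hSD1 : SD ≤ 14 + 8 * (√ (20 * L) * U) := by linarith
  -- square roots
  have hsk : √ (k : ℝ) = rt k ^ 2 := by
    unfold rt
    rw [Real.sq_sqrt (Real.sqrt_nonneg _)]
  have hsk0 : 0 < √ (k : ℝ) := Real.sqrt_pos.2 hk0
  have hskk : √ (k : ℝ) * √ (k : ℝ) = k := Real.mul_self_sqrt hk0.le
  have hs2 : √ (2 * (k : ℝ)) ≤ 1.415 * √ (k : ℝ) := by
    rw [Real.sqrt_mul (by norm_num)]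
    apply mul_le_mul_of_nonneg_right _ hsk0.le
    rw [Real.sqrt_le_left (by norm_num)]
    norm_num
  have hrs : rt k ≤ √ (k : ℝ) := by
    rw [hsk]; nlinarith
  unfold me
  rw [sub_le_iff_le_add, div_le_iff₀ hk0, add_mul, div_mul_cancel₀ _ hk0.ne']
  have e5 : √ (20 * L / k) * k = √ (20 * L) * √ (k : ℝ) := by
    rw [Real.sqrt_div (by positivity)]
    rw [div_mul_eq_mul_div, div_eq_iff hsk0.ne', mul_assoc, hskk]
  have h6 : 2 * √ (2 * (k : ℝ)) * SD ≤ 40 * √ (k : ℝ) + 23 * (√ (20 * L) * √ (k : ℝ)) * U := by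
    have h7 : 0 ≤ √ (20 * L) * U := by positivity
    calc 2 * √ (2 * (k : ℝ)) * SD ≤ 2 * (1.415 * √ (k : ℝ)) * (14 + 8 * (√ (20 * L) * U)) := by
          apply mul_le_mul _ hSD1 (sum_nonneg fun j _ => dl_nonneg _ _ _) (by positivity)
          linarith
      _ ≤ 40 * √ (k : ℝ) + 23 * (√ (20 * L) * √ (k : ℝ)) * U := by
          have : 0 ≤ √ (k : ℝ) * (√ (20 * L) * U) := by positivity
          nlinarith
  have h8 : √ (k : ℝ) ≤ k / rt k := by
    rw [le_div_iff₀ hr0]
    calc √ (k : ℝ) * rt k ≤ √ (k : ℝ) * √ (k : ℝ) := mul_le_mul_of_nonneg_left hrs hsk0.le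
      _ = k := hskk
  have e6 : ((Cs + 42) / rt k + 23 * √ (20 * L / k) * U) * k
      = k * (Cs / rt k) + 42 * (k / rt k) + 23 * (√ (20 * L / k) * k) * U := by ring
  rw [e6, e5]
  linarith

/-- all the stages between the scales `L` and `17 L` -/
theorem super {d : ℤ} (hd : Odd d) (hd3 : IsCoprime d 3) (hdd : d * d = 1) :
    ∃ C : ℝ, 0 < C ∧ ∀ k : ℕ, 100 ≤ k → ∀ f : ℤ → ℝ, InvF d f → ∀ I : ℕ, 1 ≤ I → ∀ L : ℝ,
      28 * (k : ℝ) ≤ L → 10 * (k : ℝ) ≤ L - Real.log I → ∀ η : ℝ,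
      (∀ A : ℝ, 0 < A → L ≤ Real.log A → Real.log A ≤ L + k → η ≤ me f I k A) → ∀ R : ℕ, 16 * L ≤ 0.27 * k * R →
      ∀ A : ℝ, 0 < A → L ≤ Real.log A → Real.log A ≤ 17 * L →
      η - R * (C / rt k + 23 * √ (20 * L / k) * UU f (Real.exp (L / 2)) (Real.exp (20 * L))) ≤ me f I k A := by
  obtain ⟨C, hC, hst⟩ := step hd hd3 hdd
  refine ⟨C, hC, ?_⟩
  intro k hk f hf I hI L hkL hIL η hbase
  have hk1 : 1 ≤ k := by omega
  have hk0 : (0 : ℝ) < k := by exact_mod_cast hk1
  have hr1 := rt_ge_one hk1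
  have hr0 : 0 < rt k := by linarith
  have hL0 : 0 < L := by linarith
  obtain ⟨g1, g2⟩ := log43
  set loss := C / rt k + 23 * √ (20 * L / k) * UU f (Real.exp (L / 2)) (Real.exp (20 * L)) with hloss
  have hloss0 : 0 ≤ loss := by
    have := UU_nonneg f (a := Real.exp (L / 2)) (b := Real.exp (20 * L)) (Real.exp_pos _).le
    rw [hloss]; positivity
  have key : ∀ r : ℕ, ∀ A : ℝ, 0 < A → L ≤ Real.log A → Real.log A ≤ 17 * L → Real.log A ≤ L + k + 0.27 * k * r →
      η - r * loss ≤ me f I k A := by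
    intro r
    induction r with
    | zero =>
      intro A hA h1 _ h3
      have := hbase A hA h1 (by simpa using h3)
      simpa using this
    | succ r ih =>
      intro A hA h1 h2 h3
      push_cast at h3 ⊢
      by_cases hc : Real.log A ≤ L + k + 0.27 * k * r
      · have := ih A hA h1 h2 hc
        linarith
      · push Not at hc
        have hA' : 0 < A * 3 ^ k / 4 ^ k := by positivity
        have hlog : Real.log (A * 3 ^ k / 4 ^ k) = Real.log A - k * (2 * Real.log 2 - Real.log 3) := by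
          rw [Real.log_div (by positivity) (by positivity), Real.log_mul hA.ne' (by positivity), Real.log_pow, Real.log_pow]
          have : Real.log 4 = 2 * Real.log 2 := by
            rw [show (4 : ℝ) = 2 ^ (2 : ℕ) by norm_num, Real.log_pow]; push_cast; ring
          rw [this]; ring
        have hr0' : (0 : ℝ) ≤ r := Nat.cast_nonneg r
        have h4 : (k : ℝ) * (2 * Real.log 2 - Real.log 3) ≤ k * 0.3 := mul_le_mul_of_nonneg_left g2 hk0.le
        have h5 : (k : ℝ) * 0.27 ≤ k * (2 * Real.log 2 - Real.log 3) := mul_le_mul_of_nonneg_left g1 hk0.le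
        have h6 : 0 ≤ 0.27 * (k : ℝ) * r := by positivity
        have h7 := ih (A * 3 ^ k / 4 ^ k) hA' (by rw [hlog]; linarith) (by rw [hlog]; linarith) (by
          rw [hlog]; linarith)
        have h8 := hst k hk f hf I hI A L hA h1 h2 hkL hIL
        linarith
  intro R hR A hA h1 h2
  exact key R A hA h1 h2 (by linarith)

theorem me_mul {f : ℤ → ℝ} {I k : ℕ} (hk : 1 ≤ k) (A : ℝ) (t : ℕ) (ht : 1 ≤ t) :
    me f I (t * k) A = (∑ j ∈ range t, me f I k (A * 2 ^ (j * k))) / t := by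
  have hk0 : (0 : ℝ) < k := by exact_mod_cast hk
  have ht0 : (0 : ℝ) < t := by exact_mod_cast ht
  unfold me
  have h1 : ∀ t : ℕ, ∑ m ∈ range (t * k), en f I (A * 2 ^ m)
      = ∑ j ∈ range t, ∑ m ∈ range k, en f I (A * 2 ^ (j * k) * 2 ^ m) := by
    intro t
    induction t with
    | zero => simp
    | succ t ih =>
      rw [add_mul, one_mul, sum_range_add, ih, sum_range_succ]
      congr 1
      apply sum_congr rfl
      intro m _
      congr 1
      rw [pow_add]; ring
  rw [h1, ← sum_div]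
  push_cast
  rw [div_div, mul_comm (k : ℝ) t]

/-- THE ITERATION. -/
theorem iterate_up {d : ℤ} (hd : Odd d) (hd3 : IsCoprime d 3) (hdd : d * d = 1) :
    ∃ C : ℝ, 0 < C ∧ ∀ k : ℕ, 100 ≤ k → ∀ f : ℤ → ℝ, InvF d f → ∀ I : ℕ, 1 ≤ I → ∀ L : ℝ,
      28 * (k : ℝ) ≤ L → 10 * (k : ℝ) ≤ L - Real.log I → ∀ η : ℝ,
      (∀ A : ℝ, 0 < A → L ≤ Real.log A → Real.log A ≤ L + k → η ≤ me f I k A) → ∀ R : ℕ, 16 * L ≤ 0.27 * k * R →
      ∀ J : ℕ, ∀ A : ℝ, 0 < A → 16 ^ J * L ≤ Real.log A → Real.log A ≤ 16 ^ J * (L + k) →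
      η - R * (2 * C / rt k + 46 * √ (20 * L / k) * UU f (Real.exp (L / 2)) (Real.exp (16 ^ (J + 1) * L)))
        ≤ me f I (16 ^ J * k) A := by
  obtain ⟨C, hC, hsup⟩ := super hd hd3 hdd
  refine ⟨C, hC, ?_⟩
  intro k hk f hf I hI L hkL hIL η hbase R hR
  have hk1 : 1 ≤ k := by omega
  have hk0 : (0 : ℝ) < k := by exact_mod_cast hk1
  have hr1 := rt_ge_one hk1
  have hr0 : 0 < rt k := by linarith
  have hL0 : 0 < L := by linarith
  have hlogI : 0 ≤ Real.log I := Real.log_nonneg (by exact_mod_cast hI)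
  have hR0 : (0 : ℝ) ≤ R := Nat.cast_nonneg R
  set g : ℕ → ℝ := fun i => UU f (Real.exp (L / 2)) (Real.exp (16 ^ i * (L / 2))) with hg
  have hg0 : ∀ i, 0 ≤ g i := fun i => UU_nonneg f (Real.exp_pos _).le
  have hmul : ∀ i j : ℕ, i ≤ j → (16 : ℝ) ^ i * (L / 2) ≤ 16 ^ j * (L / 2) := fun i j hij =>
    mul_le_mul_of_nonneg_right (pow_le_pow_right₀ (by norm_num) hij) (by positivity)
  have hone : ∀ i : ℕ, L / 2 ≤ (16 : ℝ) ^ i * (L / 2) := fun i => by
    have := hmul 0 i (Nat.zero_le i)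
    simpa using this
  have hU : ∀ i : ℕ, UU f (Real.exp ((16 ^ i * L) / 2)) (Real.exp (20 * (16 ^ i * L))) ≤ g (i + 2) - g i := by
    intro i
    have e1 : g i + UU f (Real.exp (16 ^ i * (L / 2))) (Real.exp (16 ^ (i + 2) * (L / 2))) = g (i + 2) := by
      rw [hg]
      unfold UU
      exact AS_add _ (Real.exp_le_exp.2 (hone i)) (Real.exp_le_exp.2 (hmul i (i + 2) (by omega)))
    have e2 : UU f (Real.exp ((16 ^ i * L) / 2)) (Real.exp (20 * (16 ^ i * L)))
        ≤ UU f (Real.exp (16 ^ i * (L / 2))) (Real.exp (16 ^ (i + 2) * (L / 2))) := by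
      apply UU_mono f (Real.exp_pos _).le
      · apply Real.exp_le_exp.2; linarith
      · apply Real.exp_le_exp.2
        rw [pow_add]
        have : 0 < (16 : ℝ) ^ i * L := by positivity
        nlinarith
    linarith
  have hrt : ∀ i : ℕ, rt (16 ^ i * k) = 2 ^ i * rt k := by
    intro i
    unfold rt
    push_cast
    have h1 : √ ((16 : ℝ) ^ i * k) = 4 ^ i * √ (k : ℝ) := by
      rw [Real.sqrt_mul (by positivity)]
      congr 1
      rw [show (16 : ℝ) ^ i = (4 ^ i) ^ 2 by rw [← pow_mul, mul_comm, pow_mul]; norm_num, Real.sqrt_sq (by positivity)]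
    rw [h1, Real.sqrt_mul (by positivity)]
    congr 1
    rw [show (4 : ℝ) ^ i = (2 ^ i) ^ 2 by rw [← pow_mul, mul_comm, pow_mul]; norm_num, Real.sqrt_sq (by positivity)]
  set q := √ (20 * L / k) with hq
  have hq0 : 0 ≤ q := Real.sqrt_nonneg _
  -- the induction
  have key : ∀ J : ℕ, ∀ A : ℝ, 0 < A → 16 ^ J * L ≤ Real.log A → Real.log A ≤ 16 ^ J * (L + k) →
      η - R * (C / rt k * (2 - 2 / 2 ^ J) + 23 * q * (g J + g (J + 1) - g 0 - g 1)) ≤ me f I (16 ^ J * k) A := by
    intro J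
    induction J with
    | zero =>
      intro A hA h1 h2
      have := hbase A hA (by simpa using h1) (by simpa using h2)
      simpa using this
    | succ J ih =>
      intro A hA h1 h2
      have h16 : (1 : ℝ) ≤ 16 ^ J := one_le_pow₀ (by norm_num)
      have h16N : 1 ≤ 16 ^ J := Nat.one_le_pow _ _ (by norm_num)
      set kJ : ℕ := 16 ^ J * k with hkJ
      set LJ : ℝ := 16 ^ J * L with hLJ
      have hkJR : (kJ : ℝ) = 16 ^ J * k := by rw [hkJ]; push_cast; ring
      have hkJ1 : 1 ≤ kJ := Nat.mul_pos h16N hk1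
      have hkJ0 : (0 : ℝ) < kJ := by exact_mod_cast hkJ1
      set ηJ := η - R * (C / rt k * (2 - 2 / 2 ^ J) + 23 * q * (g J + g (J + 1) - g 0 - g 1)) with hηJ
      have hc1 : 28 * (kJ : ℝ) ≤ LJ := by
        rw [hkJR, hLJ]
        have := mul_le_mul_of_nonneg_left hkL (show (0 : ℝ) ≤ 16 ^ J by positivity)
        linarith
      have hc2 : 10 * (kJ : ℝ) ≤ LJ - Real.log I := by
        rw [hkJR, hLJ]
        have h3 := mul_le_mul_of_nonneg_left hIL (show (0 : ℝ) ≤ 16 ^ J by positivity)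
        have h4 : Real.log I ≤ 16 ^ J * Real.log I := le_mul_of_one_le_left hlogI h16
        linarith
      have hc3 : 16 * LJ ≤ 0.27 * kJ * R := by
        rw [hkJR, hLJ]
        have h3 := mul_le_mul_of_nonneg_left hR (show (0 : ℝ) ≤ 16 ^ J by positivity)
        linarith
      have hup := hsup kJ (by
        calc 100 ≤ k := hk
          _ ≤ 16 ^ J * k := Nat.le_mul_of_pos_left k h16N) f hf I hI LJ hc1 hc2 ηJ (fun A hA h1 h2 => ih A hA h1 (by
            rw [hkJR, hLJ] at h2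
            linarith)) R hc3
      have hratio : 20 * LJ / kJ = 20 * L / k := by
        rw [hkJR, hLJ]
        field_simp
      rw [hratio, ← hq, hkJ, hrt J] at hup
      have e16 : 16 ^ (J + 1) * k = 16 * kJ := by rw [hkJ, pow_succ]; ring
      rw [e16, me_mul hkJ1 A 16 (by norm_num)]
      set loss := C / (2 ^ J * rt k) + 23 * q * UU f (Real.exp (LJ / 2)) (Real.exp (20 * LJ)) with hloss
      have hall : ∀ j ∈ range 16, ηJ - R * loss ≤ me f I kJ (A * 2 ^ (j * kJ)) := by
        intro j hj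
        rw [mem_range] at hj
        have hjR : (j : ℝ) ≤ 15 := by
          have : j ≤ 15 := by omega
          exact_mod_cast this
        have hj0 : (0 : ℝ) ≤ j := Nat.cast_nonneg j
        have hlog : Real.log (A * 2 ^ (j * kJ)) = Real.log A + j * kJ * Real.log 2 := by
          rw [Real.log_mul hA.ne' (by positivity), Real.log_pow]; push_cast; ring
        have l21 := Real.log_two_gt_d9
        have l22 := Real.log_two_lt_d9
        have hjk : (j : ℝ) * kJ * Real.log 2 ≤ 15 * kJ * 0.7 := by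
          apply mul_le_mul _ (by linarith) (by linarith) (by positivity)
          exact mul_le_mul_of_nonneg_right hjR hkJ0.le
        have hjk0 : 0 ≤ (j : ℝ) * kJ * Real.log 2 := by positivity
        have hLJ0 : 0 < LJ := by rw [hLJ]; positivity
        have e1 : (16 : ℝ) ^ (J + 1) * L = 16 * LJ := by rw [hLJ, pow_succ]; ring
        have e2 : (16 : ℝ) ^ (J + 1) * (L + k) = 16 * LJ + 16 * kJ := by rw [hLJ, hkJR, pow_succ]; ring
        rw [e1] at h1
        rw [e2] at h2
        exact hup (A * 2 ^ (j * kJ)) (by positivity) (by rw [hlog]; linarith) (by rw [hlog]; linarith)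
      have hsum := sum_le_sum hall
      rw [sum_const, card_range, nsmul_eq_mul] at hsum
      have h3 : ηJ - R * loss ≤ (∑ j ∈ range 16, me f I kJ (A * 2 ^ (j * kJ))) / ((16 : ℕ) : ℝ) := by
        rw [le_div_iff₀ (by norm_num)]
        linarith
      refine le_trans ?_ h3
      have hUJ := hU J
      rw [← hLJ] at hUJ
      have e3 : C / (2 ^ J * rt k) = C / rt k * (2 / 2 ^ J - 2 / 2 ^ (J + 1)) := by
        rw [pow_succ]; field_simp; ring
      have h4 : loss ≤ C / rt k * (2 / 2 ^ J - 2 / 2 ^ (J + 1)) + 23 * q * (g (J + 2) - g J) := by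
        rw [hloss, e3]
        have := mul_le_mul_of_nonneg_left hUJ (show 0 ≤ 23 * q by positivity)
        linarith
      have h5 := mul_le_mul_of_nonneg_left h4 hR0
      rw [hηJ]
      have e4 : J + 1 + 1 = J + 2 := by ring
      rw [e4]
      nlinarith
  intro J A hA h1 h2
  refine le_trans ?_ (key J A hA h1 h2)
  have h3 : g J ≤ g (J + 1) := UU_mono f (Real.exp_pos _).le le_rfl (Real.exp_le_exp.2 (hmul J (J + 1) (by omega)))
  have h4 : g (J + 1) ≤ UU f (Real.exp (L / 2)) (Real.exp (16 ^ (J + 1) * L)) := by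
    apply UU_mono f (Real.exp_pos _).le le_rfl
    apply Real.exp_le_exp.2
    have : 0 < (16 : ℝ) ^ (J + 1) * L := by positivity
    linarith
  set G := UU f (Real.exp (L / 2)) (Real.exp (16 ^ (J + 1) * L)) with hG
  have h5 : C / rt k * (2 - 2 / 2 ^ J) ≤ 2 * C / rt k := by
    have h6 : 0 < C / rt k := by positivity
    have h7 : (0 : ℝ) < 2 / 2 ^ J := by positivity
    have e : 2 * C / rt k = C / rt k * 2 := by ring
    rw [e]
    apply mul_le_mul_of_nonneg_left _ h6.le
    linarith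
  have h6 : 23 * q * (g J + g (J + 1) - g 0 - g 1) ≤ 46 * q * G := by
    have h7 := hg0 0
    have h8 := hg0 1
    have h9 : g J + g (J + 1) - g 0 - g 1 ≤ 2 * G := by linarith
    have := mul_le_mul_of_nonneg_left h9 (show 0 ≤ 23 * q by positivity)
    linarith
  have h7 := mul_le_mul_of_nonneg_left (add_le_add h5 h6) hR0
  linarith

end Pool.Agent.KS6_32.BD
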