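import Pool.Agent.KS6_32.BD.Iter

/-! The lower bound for the weighted number of the boundary points of an invariant set. -/

set_option autoImplicit false

namespace Pool.Agent.KS6_32.BD

open Pool.Agent.H320R2.PD Pool.Agent.H499R2.ND Pool.Agent.H499R2.CO Pool.Agent.W41.FU Pool.Agent.W41 Finset
open Pool.Agent.Y965.SI

/-- at the top the energy of the averages over a fixed number of cells is small -/
theorem top {s : ℤ} (hs : s = 1 ∨ s = -1) {I : ℕ} (hI : 1 ≤ I) {ε : ℝ} (hε : 0 < ε) (hε1 : ε ≤ 1) :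
    ∃ A₁ : ℝ, ∀ S : Set ℤ, Inv 1 S → ∀ D : ℝ, HD s S D → 0 ≤ D → D ≤ 1 → ∀ A : ℝ, A₁ ≤ A →
      en (fun x => ind s S x - D) I A ≤ ε := by
  have hI0 : (0 : ℝ) < I := by exact_mod_cast hI
  obtain ⟨N0, hN0⟩ := unif hs (show 0 < ε / (32 * I) by positivity)
  refine ⟨max (2 * ((N0 : ℝ) + 2)) (20 * I / ε), ?_⟩
  intro S hS D hD hD0 hD1 A hA
  have hA1 : 2 * ((N0 : ℝ) + 2) ≤ A := (le_max_left _ _).trans hA
  have hA2 : 20 * (I : ℝ) / ε ≤ A := (le_max_right _ _).trans hA
  have hN00 : (0 : ℝ) ≤ N0 := Nat.cast_nonneg _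
  have hA0 : 0 < A := by linarith
  rw [div_le_iff₀ hε] at hA2
  set ε' := ε / (32 * I) with hε'
  have hε'0 : 0 < ε' := by positivity
  have hu := hN0 S hS D hD
  have hF : ∀ Y : ℝ, A / 2 ≤ Y → Y ≤ 2 * A → |AS (ind s S) 1 Y - D * Y| ≤ 2 * ε' * A + 1 := by
    intro Y h1 h2
    have h3 := AS_ind_real hD0 hD1 hε'0.le hu (Y := Y) (by linarith)
    have h4 : ε' * Y ≤ ε' * (2 * A) := mul_le_mul_of_nonneg_left h2 hε'0.le
    linarith
  have hcell : ∀ i ∈ range I, ph (fun x => ind s S x - D) I A i ^ 2 ≤ ε := by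
    intro i hi
    rw [mem_range] at hi
    have hiR : (i : ℝ) + 1 ≤ I := by exact_mod_cast hi
    have hi0 : (0 : ℝ) ≤ i := Nat.cast_nonneg i
    unfold ph
    set a := A * ((I : ℝ) + i) / I with ha
    set b := A * ((I : ℝ) + (i + 1)) / I with hb
    have hab : a < b := cell_lt hI hA0 i
    have hba : b - a = A / I := by rw [ha, hb]; field_simp; ring
    have haA : A ≤ a := by
      rw [ha, le_div_iff₀ hI0]
      nlinarith
    have hbA : b ≤ 2 * A := by
      rw [hb, div_le_iff₀ hI0]
      nlinarith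
    have h1 : |OS (ind s S) a b - D * ((b - a) / 2)| ≤ 8 * ε' * A + 4 := by
      rw [OS_AS (ind_two hs hS)]
      have e1 := AS_add (ind s S) (a := 1) (b := a) (c := b) (by linarith) hab.le
      have e2 := AS_add (ind s S) (a := 1) (b := a / 2) (c := b / 2) (by linarith) (by linarith)
      have f1 := hF a (by linarith) (by linarith)
      have f2 := hF b (by linarith) (by linarith)
      have f3 := hF (a / 2) (by linarith) (by linarith)
      have f4 := hF (b / 2) (by linarith) (by linarith)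
      rw [abs_le] at f1 f2 f3 f4 ⊢
      constructor <;> linarith [f1.1, f1.2, f2.1, f2.2, f3.1, f3.2, f4.1, f4.2]
    have h2 : OS (fun x => ind s S x - D) a b = OS (ind s S) a b - D * ((cls Set.univ a b 0 1 0).card : ℝ) := by
      unfold OS WS
      rw [sum_sub_distrib, sum_const, nsmul_eq_mul]
      ring
    have h3 : |((cls Set.univ a b 0 1 0).card : ℝ) - (b - a) / 2| ≤ 1 := by
      have h4 := odd_card_ge a b
      have h5 := cls_card_le Set.univ hab.le 0 isCoprime_one_left 0
      rw [pow_zero, mul_one] at h5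
      rw [abs_le]; constructor <;> linarith
    have h4 : |OS (fun x => ind s S x - D) a b| ≤ 8 * ε' * A + 5 := by
      rw [h2]
      have e : OS (ind s S) a b - D * ((cls Set.univ a b 0 1 0).card : ℝ)
          = (OS (ind s S) a b - D * ((b - a) / 2)) - D * (((cls Set.univ a b 0 1 0).card : ℝ) - (b - a) / 2) := by ring
      rw [e]
      have h5 := abs_sub (OS (ind s S) a b - D * ((b - a) / 2)) (D * (((cls Set.univ a b 0 1 0).card : ℝ) - (b - a) / 2))
      have h6 : |D * (((cls Set.univ a b 0 1 0).card : ℝ) - (b - a) / 2)| ≤ 1 := by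
        rw [abs_mul, abs_of_nonneg hD0]
        calc D * |((cls Set.univ a b 0 1 0).card : ℝ) - (b - a) / 2| ≤ 1 * 1 :=
              mul_le_mul hD1 h3 (abs_nonneg _) (by norm_num)
          _ = 1 := by norm_num
      linarith
    have h5 : |av (fun x => ind s S x - D) a b| ≤ ε := by
      unfold av
      have hden : 0 < (b - a) / 2 + 1 := by linarith
      rw [abs_div, abs_of_pos hden, div_le_iff₀ hden]
      refine h4.trans ?_
      rw [hba]
      have e1 : 8 * ε' * A = ε * (A / I / 2) / 2 := by rw [hε']; field_simp; ring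
      have e2 : 5 ≤ ε * (A / I / 2) / 2 := by
        have e3 : ε * (A / I / 2) / 2 = (A * ε) / (4 * I) := by field_simp; ring
        rw [e3, le_div_iff₀ (by positivity)]
        linarith
      have e3 : 0 < ε * (A / I / 2) := by positivity
      rw [e1]
      linarith
    rw [← sq_abs]
    calc |av (fun x => ind s S x - D) a b| ^ 2 ≤ ε ^ 2 := pow_le_pow_left₀ (abs_nonneg _) h5 2
      _ ≤ ε := by nlinarith
  unfold en
  have h := sum_le_sum hcell
  rw [sum_const, card_range, nsmul_eq_mul] at h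
  rw [one_div_mul_eq_div, div_le_iff₀ hI0]
  linarith

/-- THE LOWER BOUND, uniform in the invariant set. -/
theorem lower {s : ℤ} (hs : s = 1 ∨ s = -1) {δ₁ : ℝ} (hδ₁ : 0 < δ₁) :
    ∃ c : ℝ, 0 < c ∧ ∀ M : ℝ, ∃ M' : ℝ, ∀ S : Set ℤ, Inv 1 S → ∀ D : ℝ, HD s S D → δ₁ ≤ D → D ≤ 1 - δ₁ →
      c ≤ UU (ind s S) (max M 0) M' := by
  rcases le_or_gt δ₁ (1 / 2) with hsmall | hlarge
  swap
  · refine ⟨1, one_pos, fun _ => ⟨0, fun S _ D _ h1 h2 => ?_⟩⟩
    exfalso; linarith
  have hs1 : Odd s := by rcases hs with rfl | rfl <;> decide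
  have hs3 : IsCoprime s 3 := by
    rcases hs with rfl | rfl
    · exact isCoprime_one_left
    · exact isCoprime_one_left.neg_left
  have hss : s * s = 1 := by rcases hs with rfl | rfl <;> norm_num
  obtain ⟨θ, hθ, hθ1, Le, hLe, hen⟩ := energy hs1 hss (show 0 < δ₁ / 16 by positivity) (by linarith)
  obtain ⟨Y0, hY0⟩ := energy_ind hs hδ₁
  obtain ⟨C, hC, hit⟩ := iterate_up hs1 hs3 hss
  set R : ℕ := ⌈2400 / θ⌉₊ with hR
  have hR1 : 2400 / θ ≤ R := Nat.le_ceil _
  have hR0 : (0 : ℝ) < R := lt_of_lt_of_le (by positivity) hR1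
  set q : ℝ := √ (800 / θ) with hq
  have hq0 : 0 < q := Real.sqrt_pos.2 (by positivity)
  refine ⟨δ₁ / (32 * (46 * q * R)), by positivity, ?_⟩
  intro M
  -- choice of `k`
  obtain ⟨k, hk⟩ := exists_nat_ge (max (max (100 : ℝ) Le) (max (max (Real.log (max Y0 1)) (Real.log (max M 1)))
    ((R * (2 * C) / (δ₁ / 32)) ^ 4)))
  have hk100R : (100 : ℝ) ≤ k := ((le_max_left _ _).trans (le_max_left _ _)).trans hk
  have hkLe : Le ≤ k := ((le_max_right _ _).trans (le_max_left _ _)).trans hk
  have hkY : Real.log (max Y0 1) ≤ k := (((le_max_left _ _).trans (le_max_left _ _)).trans (le_max_right _ _)).trans hk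
  have hkM : Real.log (max M 1) ≤ k := (((le_max_right _ _).trans (le_max_left _ _)).trans (le_max_right _ _)).trans hk
  have hkC : (R * (2 * C) / (δ₁ / 32)) ^ 4 ≤ (k : ℝ) := ((le_max_right _ _).trans (le_max_right _ _)).trans hk
  have hk100 : 100 ≤ k := by exact_mod_cast hk100R
  have hk0 : (0 : ℝ) < k := by linarith
  have hr1 := rt_ge_one (show 1 ≤ k by omega)
  have hr0 : 0 < rt k := by linarith
  have hrC : R * (2 * C) / (δ₁ / 32) ≤ rt k := by
    by_contra hcon
    push Not at hcon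
    have h1 : rt k ^ 4 < (R * (2 * C) / (δ₁ / 32)) ^ 4 := pow_lt_pow_left₀ hcon hr0.le (by norm_num)
    rw [rt_pow] at h1
    linarith
  set L : ℝ := 40 * k / θ with hL
  have hθL : θ * L = 40 * k := by rw [hL]; field_simp
  have hLk : 40 * (k : ℝ) ≤ L := by
    rw [hL, le_div_iff₀ hθ]
    nlinarith
  have hL0 : 0 < L := by linarith
  set X : ℝ := Real.exp (L * (1 - θ / 2)) with hX
  have hX2 : 2 ≤ X := by
    have h1 := Real.add_one_le_exp (L * (1 - θ / 2))
    have h2 : L * (1 - θ / 2) = L - 20 * k := by linarith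
    rw [hX]; linarith
  set I : ℕ := ⌊X⌋₊ with hI
  have hI1 : (I : ℝ) ≤ X := Nat.floor_le (by positivity)
  have hI2 : X / 2 ≤ I := by
    have := Nat.lt_floor_add_one X
    rw [hI]; linarith
  have hI1R : (1 : ℝ) ≤ I := by linarith
  have hIN : 1 ≤ I := by exact_mod_cast hI1R
  have hI0 : (0 : ℝ) < I := by linarith
  have hlogX : Real.log X = L - 20 * k := by
    rw [hX, Real.log_exp]; linarith
  have hlogI1 : Real.log I ≤ L - 20 * k := by
    rw [← hlogX]; exact Real.log_le_log hI0 hI1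
  have hlogI2 : L - 20 * k - 1 ≤ Real.log I := by
    have h1 := Real.log_le_log (by positivity) hI2
    rw [Real.log_div (by positivity) (by norm_num), hlogX] at h1
    have := Real.log_two_lt_d9
    linarith
  obtain ⟨A₁, hA₁⟩ := top hs hIN (show 0 < δ₁ / 32 by positivity) (by linarith)
  -- choice of `J`
  obtain ⟨J, hJ⟩ : ∃ J : ℕ, Real.log (max A₁ 1) ≤ 16 ^ J * L := by
    obtain ⟨J, hJ⟩ := pow_unbounded_of_one_lt (Real.log (max A₁ 1) / L) (show (1 : ℝ) < 16 by norm_num)
    refine ⟨J, ?_⟩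
    rw [div_lt_iff₀ hL0] at hJ
    exact hJ.le
  refine ⟨Real.exp (16 ^ (J + 1) * L), ?_⟩
  intro S hS D hD hD1 hD2
  set f : ℤ → ℝ := fun x => ind s S x - D with hf
  have hfI : InvF s f := by
    refine ⟨fun x => ?_, fun x => ?_⟩
    · have := ind_01 s S x
      rw [hf, abs_le]; constructor <;> simp only <;> linarith [this.1, this.2]
    · rw [hf]
      simp only
      rw [ind_inv hs hS]
  have hbase : ∀ A : ℝ, 0 < A → L ≤ Real.log A → Real.log A ≤ L + k → δ₁ / 8 ≤ me f I k A := by
    intro A hA h1 h2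
    unfold me
    rw [le_div_iff₀ hk0]
    have h3 : ∀ m ∈ range k, δ₁ / 8 ≤ en f I (A * 2 ^ m) := by
      intro m hm
      rw [mem_range] at hm
      have hmR : (m : ℝ) ≤ k := by exact_mod_cast hm.le
      have hm0 : (0 : ℝ) ≤ m := Nat.cast_nonneg m
      set Y := A * 2 ^ m with hY
      have hYpos : 0 < Y := by positivity
      have l21 := Real.log_two_gt_d9
      have l22 := Real.log_two_lt_d9
      have hlogY : Real.log Y = Real.log A + m * Real.log 2 := by
        rw [hY, Real.log_mul hA.ne' (by positivity), Real.log_pow]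
      have hm1 : (m : ℝ) * Real.log 2 ≤ k := by
        calc (m : ℝ) * Real.log 2 ≤ k * 1 := mul_le_mul hmR (by linarith) (by linarith) hk0.le
          _ = k := mul_one _
      have hm2 : 0 ≤ (m : ℝ) * Real.log 2 := by positivity
      have hlogYI : Real.log (Y / I) = Real.log Y - Real.log I := Real.log_div hYpos.ne' hI0.ne'
      have h4 := hen f hfI Y I hYpos hIN (by rw [hlogYI]; linarith) (by
        rw [hlogYI]
        have h5 : θ * L ≤ θ * Real.log Y := mul_le_mul_of_nonneg_left (by linarith) hθ.le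
        linarith)
      have hYY : Y0 ≤ Y := by
        have h5 : Real.log (max Y0 1) ≤ Real.log Y := by linarith
        have h6 := (Real.log_le_log_iff (lt_of_lt_of_le one_pos (le_max_right Y0 1)) hYpos).1 h5
        exact (le_max_left _ _).trans h6
      have h5 := hY0 S hS D hD hD1 hD2 D Y hYY
      have h6 : δ₁ / 4 ≤ 2 / Y * OS (fun x => f x ^ 2) Y (2 * Y) := by
        have h7 := mul_le_mul_of_nonneg_left h5 (show 0 ≤ 2 / Y by positivity)
        refine le_trans (le_of_eq ?_) h7
        field_simp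
      have h7 : δ₁ / 8 ≤ 1 / (I : ℝ) * ∑ i ∈ range I, av f (Y * (I + i) / I) (Y * (I + (i + 1)) / I) ^ 2 := by linarith
      exact h7
    have h4 := sum_le_sum h3
    rw [sum_const, card_range, nsmul_eq_mul] at h4
    linarith
  have hmain := hit k hk100 f hfI I hIN L (by linarith) (by linarith) (δ₁ / 8) hbase R (by
    have h1 := mul_le_mul_of_nonneg_left hR1 (show (0 : ℝ) ≤ 0.27 * k by positivity)
    refine le_trans ?_ h1
    rw [hL]
    have e : 0.27 * (k : ℝ) * (2400 / θ) = 648 * (k / θ) := by ring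
    have e2 : 16 * (40 * (k : ℝ) / θ) = 640 * (k / θ) := by ring
    rw [e, e2]
    have : 0 < (k : ℝ) / θ := by positivity
    linarith) J (Real.exp (16 ^ J * L)) (Real.exp_pos _) (by rw [Real.log_exp]) (by
      rw [Real.log_exp]
      apply mul_le_mul_of_nonneg_left _ (by positivity)
      linarith)
  have hratio : 20 * L / k = 800 / θ := by rw [hL]; field_simp; ring
  rw [hratio, ← hq] at hmain
  -- the top
  have htop : me f I (16 ^ J * k) (Real.exp (16 ^ J * L)) ≤ δ₁ / 32 := by
    unfold me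
    have hpos : (0 : ℝ) < ((16 ^ J * k : ℕ) : ℝ) := by
      have : 0 < 16 ^ J * k := Nat.mul_pos (by positivity) (by omega)
      exact_mod_cast this
    rw [div_le_iff₀ hpos]
    have h1 : ∀ m ∈ range (16 ^ J * k), en f I (Real.exp (16 ^ J * L) * 2 ^ m) ≤ δ₁ / 32 := by
      intro m _
      apply hA₁ S hS D hD (by linarith) (by linarith)
      have h2 : max A₁ 1 ≤ Real.exp (16 ^ J * L) := by
        rwa [← Real.log_le_iff_le_exp (lt_of_lt_of_le one_pos (le_max_right _ _))]
      have h3 : Real.exp (16 ^ J * L) ≤ Real.exp (16 ^ J * L) * 2 ^ m :=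
        le_mul_of_one_le_right (Real.exp_pos _).le (one_le_pow₀ (by norm_num))
      exact (le_max_left _ _).trans (h2.trans h3)
    have h2 := sum_le_sum h1
    rw [sum_const, card_range, nsmul_eq_mul] at h2
    linarith
  -- conclusion
  have hUU : UU f (Real.exp (L / 2)) (Real.exp (16 ^ (J + 1) * L)) ≤ UU (ind s S) (max M 0) (Real.exp (16 ^ (J + 1) * L)) := by
    have e : UU f (Real.exp (L / 2)) (Real.exp (16 ^ (J + 1) * L)) = UU (ind s S) (Real.exp (L / 2)) (Real.exp (16 ^ (J + 1) * L)) := by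
      unfold UU AS
      apply sum_congr rfl
      intro n _
      congr 1
      unfold vr
      rw [hf]
      simp only
      rw [sub_sub_sub_cancel_right]
    rw [e]
    apply UU_mono _ (le_max_right _ _) _ le_rfl
    have h1 : max M 1 ≤ Real.exp (L / 2) := by
      rw [← Real.log_le_iff_le_exp (lt_of_lt_of_le one_pos (le_max_right _ _))]
      linarith
    exact max_le ((le_max_left _ _).trans h1) (Real.exp_pos _).le
  have h1 : R * (2 * C / rt k) ≤ δ₁ / 32 := by
    have e : R * (2 * C / rt k) = R * (2 * C) / rt k := by ring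
    rw [e, div_le_iff₀ hr0]
    rw [div_le_iff₀ (by positivity)] at hrC
    linarith
  have h2 : δ₁ / 32 ≤ 46 * q * R * UU f (Real.exp (L / 2)) (Real.exp (16 ^ (J + 1) * L)) := by
    have e : R * (2 * C / rt k + 46 * q * UU f (Real.exp (L / 2)) (Real.exp (16 ^ (J + 1) * L)))
        = R * (2 * C / rt k) + 46 * q * R * UU f (Real.exp (L / 2)) (Real.exp (16 ^ (J + 1) * L)) := by ring
    rw [e] at hmain
    linarith
  refine le_trans ?_ hUU
  rw [div_le_iff₀ (by positivity)]
  linarith

end Pool.Agent.KS6_32.BD
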