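import Pool.Agent.KS6_32.BD.Stage

/-! The averages over the odd integers of the cells `[a, b)` and `[2 a, 2 b)` are close if few integers `n` have
`f (n + 1) ≠ f n`. -/

set_option autoImplicit false

namespace Pool.Agent.KS6_32.BD

open Pool.Agent.H320R2.PD Pool.Agent.H499R2.ND Pool.Agent.H499R2.CO Pool.Agent.W41.FU Finset
open Pool.Agent.Y965.SI

/-- the variation of `f` at `n` -/
def vr (f : ℤ → ℝ) (n : ℤ) : ℝ := |f (n + 1) - f n|

theorem vr_nonneg (f : ℤ → ℝ) (n : ℤ) : 0 ≤ vr f n := abs_nonneg _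

theorem OS_mono {g h : ℤ → ℝ} (hgh : ∀ x, g x ≤ h x) (a b : ℝ) : OS g a b ≤ OS h a b := by
  unfold OS WS
  exact sum_le_sum fun x _ => hgh x

theorem OS_nonneg {g : ℤ → ℝ} (hg : ∀ x, 0 ≤ g x) (a b : ℝ) : 0 ≤ OS g a b := by
  unfold OS WS
  exact sum_nonneg fun x _ => hg x

theorem OS_double {f : ℤ → ℝ} (hf : ∀ x, |f x| ≤ 1) (h2 : ∀ y, f (2 * y) = f y) (a b : ℝ) :
    |OS f (2 * a) (2 * b) - 2 * OS f a b| ≤ 6 + OS (fun x => vr f (2 * x - 1) + vr f (2 * x)) a b := by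
  have hs := OS_split f a b 1
  rw [pow_one] at hs
  have e0 : OS f (2 * a) (2 * b) = WS (fun x => f (2 * x - 1)) (a + 1 / 2) (b + 1 / 2) 0 1 0
      + WS (fun x => f (2 * x + 1)) (a + -(1 / 2)) (b + -(1 / 2)) 0 1 0 := by
    have e2 : range (2 ^ 1) = range (1 + 1) := rfl
    rw [hs, e2, sum_range_succ, sum_range_one]
    have f1 : (fun x : ℤ => f (2 ^ 1 * x + (2 * ((0 : ℕ) : ℤ) + 1 - 2 ^ 1))) = fun x => f (2 * x - 1) := by
      funext x; congr 1
    have f2 : (fun x : ℤ => f (2 ^ 1 * x + (2 * ((1 : ℕ) : ℤ) + 1 - 2 ^ 1))) = fun x => f (2 * x + 1) := by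
      funext x; congr 1
    have f3 : -((2 * ((0 : ℕ) : ℝ) + 1 - 2) / 2) = 1 / 2 := by push_cast; ring
    have f4 : -((2 * ((1 : ℕ) : ℝ) + 1 - 2) / 2) = -(1 / 2) := by push_cast; ring
    rw [f1, f2, f3, f4]
  have h3 : ∀ (g : ℤ → ℝ) (s : ℝ), (∀ x, |g x| ≤ 1) → |s| ≤ 1 →
      |WS g (a + s) (b + s) 0 1 0 - OS f a b| ≤ 3 + OS (fun x => |g x - f x|) a b := by
    intro g s hg hs1
    have h4 := shiftW hg (a := a) (b := b) hs1 0 isCoprime_one_left 0
    have e1 : (2 : ℝ) * (1 / (2 * 3 ^ 0) + 1) = 3 := by norm_num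
    rw [e1] at h4
    have h5 : |WS g a b 0 1 0 - OS f a b| ≤ OS (fun x => |g x - f x|) a b := by
      unfold OS WS
      rw [← sum_sub_distrib]
      exact abs_sum_le_sum_abs _ _
    have h6 := abs_sub_le (WS g (a + s) (b + s) 0 1 0) (WS g a b 0 1 0) (OS f a b)
    linarith
  have h4 := h3 (fun x => f (2 * x - 1)) (1 / 2) (fun x => hf _) (by rw [abs_of_pos] <;> norm_num)
  have h5 := h3 (fun x => f (2 * x + 1)) (-(1 / 2)) (fun x => hf _) (by rw [abs_neg, abs_of_pos] <;> norm_num)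
  have h6 : OS (fun x => |f (2 * x - 1) - f x|) a b + OS (fun x => |f (2 * x + 1) - f x|) a b
      = OS (fun x => vr f (2 * x - 1) + vr f (2 * x)) a b := by
    unfold OS WS
    rw [← sum_add_distrib]
    apply sum_congr rfl
    intro x _
    simp only [vr]
    rw [sub_add_cancel, h2 x, abs_sub_comm (f (2 * x - 1)) (f x)]
  rw [e0, ← h6]
  set P := WS (fun x => f (2 * x - 1)) (a + 1 / 2) (b + 1 / 2) 0 1 0
  set Q := WS (fun x => f (2 * x + 1)) (a + -(1 / 2)) (b + -(1 / 2)) 0 1 0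
  have e : P + Q - 2 * OS f a b = (P - OS f a b) + (Q - OS f a b) := by ring
  rw [e]
  have h7 := abs_add_le (P - OS f a b) (Q - OS f a b)
  linarith

theorem av_double {f : ℤ → ℝ} (hf : ∀ x, |f x| ≤ 1) (h2 : ∀ y, f (2 * y) = f y) {a b : ℝ} (hab : a < b) :
    |av f (2 * a) (2 * b) - av f a b| * (b - a) ≤ 7 + OS (fun x => vr f (2 * x - 1) + vr f (2 * x)) a b := by
  have h3 := OS_double hf h2 a b
  have h4 : |av f a b| ≤ 1 := av_abs hf hab.le
  have hpos : 0 < b - a := by linarith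
  set ℓ := b - a with hℓ
  have e1 : OS f (2 * a) (2 * b) = av f (2 * a) (2 * b) * (ℓ + 1) := by
    unfold av
    have e : (2 * b - 2 * a) / 2 + 1 = ℓ + 1 := by rw [hℓ]; ring
    rw [e, div_mul_cancel₀ _ (by linarith)]
  have e2 : OS f a b = av f a b * (ℓ / 2 + 1) := by
    unfold av
    rw [← hℓ, div_mul_cancel₀ _ (by linarith)]
  have e3 : OS f (2 * a) (2 * b) - 2 * OS f a b = (av f (2 * a) (2 * b) - av f a b) * (ℓ + 1) - av f a b := by
    rw [e1, e2]; ring
  rw [e3] at h3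
  set x := av f (2 * a) (2 * b) - av f a b with hx
  have h5 : |x * (ℓ + 1)| ≤ |x * (ℓ + 1) - av f a b| + |av f a b| := by
    have := abs_add_le (x * (ℓ + 1) - av f a b) (av f a b)
    rwa [sub_add_cancel] at this
  rw [abs_mul, abs_of_pos (show 0 < ℓ + 1 by linarith)] at h5
  have h6 : |x| * ℓ ≤ |x| * (ℓ + 1) := mul_le_mul_of_nonneg_left (by linarith) (abs_nonneg _)
  linarith

/-- the average of `f` over the odd integers of the `i`-th of the `I` cells of `[A, 2 A)` -/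
noncomputable def ph (f : ℤ → ℝ) (I : ℕ) (A : ℝ) (i : ℕ) : ℝ := av f (A * (I + i) / I) (A * (I + (i + 1)) / I)

/-- the energy of the averages -/
noncomputable def en (f : ℤ → ℝ) (I : ℕ) (A : ℝ) : ℝ := 1 / (I : ℝ) * ∑ i ∈ range I, ph f I A i ^ 2

/-- the distance of the averages at `A` and `2 A` -/
noncomputable def dl (f : ℤ → ℝ) (I : ℕ) (A : ℝ) : ℝ := 1 / (I : ℝ) * ∑ i ∈ range I, |ph f I (2 * A) i - ph f I A i|

theorem cell_lt {I : ℕ} (hI : 1 ≤ I) {A : ℝ} (hA : 0 < A) (i : ℕ) : A * (I + i) / I < A * (I + (i + 1)) / I := by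
  have hI0 : (0 : ℝ) < I := by exact_mod_cast hI
  apply div_lt_div_of_pos_right _ hI0
  apply mul_lt_mul_of_pos_left _ hA
  linarith

theorem ph_abs {f : ℤ → ℝ} (hf : ∀ x, |f x| ≤ 1) {I : ℕ} (hI : 1 ≤ I) {A : ℝ} (hA : 0 < A) (i : ℕ) :
    |ph f I A i| ≤ 1 := av_abs hf (cell_lt hI hA i).le

theorem en_nonneg (f : ℤ → ℝ) (I : ℕ) (A : ℝ) : 0 ≤ en f I A := by
  unfold en
  exact mul_nonneg (by positivity) (sum_nonneg fun i _ => sq_nonneg _)

theorem dl_nonneg (f : ℤ → ℝ) (I : ℕ) (A : ℝ) : 0 ≤ dl f I A := by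
  unfold dl
  exact mul_nonneg (by positivity) (sum_nonneg fun i _ => abs_nonneg _)

theorem en_le_one {f : ℤ → ℝ} (hf : ∀ x, |f x| ≤ 1) {I : ℕ} (hI : 1 ≤ I) {A : ℝ} (hA : 0 < A) : en f I A ≤ 1 := by
  have hI0 : (0 : ℝ) < I := by exact_mod_cast hI
  unfold en
  have h : ∑ i ∈ range I, ph f I A i ^ 2 ≤ ∑ i ∈ range I, (1 : ℝ) := by
    apply sum_le_sum
    intro i _
    have := ph_abs hf hI hA i
    rw [← sq_abs]
    exact pow_le_one₀ (abs_nonneg _) this
  rw [sum_const, card_range, nsmul_eq_mul, mul_one] at h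
  rw [one_div_mul_eq_div, div_le_one hI0]
  exact h

theorem OS_pairs {v : ℤ → ℝ} (hv : ∀ x, 0 ≤ v x) {a b : ℝ} :
    OS (fun x => v (2 * x - 1) + v (2 * x)) a b ≤ AS v (2 * a - 1) (2 * b) := by
  classical
  unfold OS WS AS
  have h1 : ∑ x ∈ cls Set.univ a b 0 1 0, (v (2 * x - 1) + v (2 * x))
      = ∑ n ∈ (cls Set.univ a b 0 1 0).image (fun x => 2 * x - 1) ∪ (cls Set.univ a b 0 1 0).image (fun x => 2 * x), v n := by
    rw [sum_union, sum_image, sum_image, ← sum_add_distrib]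
    · intro x _ y _ h; simp only at h; omega
    · intro x _ y _ h; simp only at h; omega
    · rw [Finset.disjoint_left]
      intro n hn hn'
      rw [mem_image] at hn hn'
      obtain ⟨x, -, rfl⟩ := hn
      obtain ⟨y, -, h⟩ := hn'
      omega
  rw [h1]
  apply sum_le_sum_of_subset_of_nonneg
  · intro n hn
    rw [mem_win]
    rw [mem_union, mem_image, mem_image] at hn
    rcases hn with ⟨x, hx, rfl⟩ | ⟨x, hx, rfl⟩
    · rw [mem_odd] at hx
      push_cast
      constructor <;> linarith [hx.1.1, hx.1.2]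
    · rw [mem_odd] at hx
      push_cast
      constructor <;> linarith [hx.1.1, hx.1.2]
  · intro n _ _; exact hv n

theorem AS_nonneg {g : ℤ → ℝ} {a b : ℝ} (hg : ∀ x : ℤ, a ≤ x → 0 ≤ g x) : 0 ≤ AS g a b := by
  unfold AS
  apply sum_nonneg
  intro x hx
  rw [mem_win] at hx
  exact hg x hx.1

theorem AS_mono_set {g : ℤ → ℝ} {a b c d : ℝ} (hg : ∀ x : ℤ, c ≤ x → 0 ≤ g x) (h1 : c ≤ a) (h2 : b ≤ d) :
    AS g a b ≤ AS g c d := by
  unfold AS
  apply sum_le_sum_of_subset_of_nonneg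
  · intro n hn
    rw [mem_win] at hn ⊢
    exact ⟨h1.trans hn.1, lt_of_lt_of_le hn.2 h2⟩
  · intro n hn _
    rw [mem_win] at hn
    exact hg n hn.1

/-- one level -/
theorem dl_le {f : ℤ → ℝ} (hf : ∀ x, |f x| ≤ 1) (h2 : ∀ y, f (2 * y) = f y) {I : ℕ} (hI : 1 ≤ I) {A : ℝ} (hA : 1 ≤ A) :
    dl f I A ≤ 7 * (I / A) + 4 * (AS (fun n => vr f n / n) A (2 * A) + AS (fun n => vr f n / n) (2 * A) (4 * A)) := by
  have hI0 : (0 : ℝ) < I := by exact_mod_cast hI
  have hA0 : 0 < A := by linarith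
  set u : ℕ → ℝ := fun i => A * (I + i) / I with hu
  have hcast : ∀ i : ℕ, A * ((I : ℝ) + ((i : ℝ) + 1)) / I = u (i + 1) := by
    intro i; rw [hu]; simp only; push_cast; ring
  have humono : Monotone u := by
    intro i j hij
    have : (i : ℝ) ≤ j := by exact_mod_cast hij
    rw [hu]
    simp only
    apply div_le_div_of_nonneg_right _ hI0.le
    apply mul_le_mul_of_nonneg_left _ hA0.le
    linarith
  have hu0 : u 0 = A := by
    rw [hu]; simp only; push_cast; field_simp; ring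
  have huI : u I = 2 * A := by
    rw [hu]; simp only; field_simp; ring
  have hcell : ∀ i ∈ range I, |ph f I (2 * A) i - ph f I A i| * (A / I)
      ≤ 7 + OS (fun x => vr f (2 * x - 1) + vr f (2 * x)) (u i) (u (i + 1)) := by
    intro i _
    have h3 := av_double hf h2 (cell_lt hI hA0 i)
    have e1 : 2 * (A * ((I : ℝ) + i) / I) = 2 * A * (I + i) / I := by ring
    have e2 : 2 * (A * ((I : ℝ) + (i + 1)) / I) = 2 * A * (I + (i + 1)) / I := by ring
    have e3 : A * ((I : ℝ) + (i + 1)) / I - A * (I + i) / I = A / I := by ring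
    rw [e1, e2, e3] at h3
    unfold ph
    rw [hcast] at h3
    rw [hcast]
    exact h3
  have hsum := sum_le_sum hcell
  rw [← sum_mul, sum_add_distrib, sum_const, card_range, nsmul_eq_mul, OS_cells _ u humono, hu0, huI] at hsum
  have h4 : OS (fun x => vr f (2 * x - 1) + vr f (2 * x)) A (2 * A) ≤ AS (vr f) (2 * A - 1) (2 * (2 * A)) :=
    OS_pairs (vr_nonneg f)
  have h5 : AS (vr f) (2 * A - 1) (2 * (2 * A)) ≤ AS (fun n => 4 * A * (vr f n / n)) (2 * A - 1) (2 * (2 * A)) := by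
    apply AS_mono
    intro x hx1 hx2
    have hx0 : (0 : ℝ) < x := by linarith
    rw [← mul_div_assoc, le_div_iff₀ hx0, mul_comm]
    exact mul_le_mul_of_nonneg_right (by linarith) (vr_nonneg f x)
  rw [AS_const_mul] at h5
  have hg : ∀ x : ℤ, A ≤ x → 0 ≤ vr f x / x := fun x hx => div_nonneg (vr_nonneg f x) (by linarith)
  have h6 : AS (fun n => vr f n / n) (2 * A - 1) (2 * (2 * A))
      ≤ AS (fun n => vr f n / n) A (2 * A) + AS (fun n => vr f n / n) (2 * A) (4 * A) := by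
    rw [AS_add _ (by linarith) (by linarith)]
    exact AS_mono_set hg (by linarith) (by linarith)
  set W := AS (fun n => vr f n / n) A (2 * A) + AS (fun n => vr f n / n) (2 * A) (4 * A) with hW
  unfold dl
  set Sd := ∑ i ∈ range I, |ph f I (2 * A) i - ph f I A i| with hSd
  have h7 : Sd * (A / I) ≤ I * 7 + 4 * A * W := by
    have := mul_le_mul_of_nonneg_left h6 (show 0 ≤ 4 * A by positivity)
    linarith
  have e : 1 / (I : ℝ) * Sd = (Sd * (A / I)) / A := by field_simp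
  rw [e, div_le_iff₀ hA0]
  have e2 : (7 * ((I : ℝ) / A) + 4 * W) * A = I * 7 + 4 * A * W := by field_simp
  rw [e2]
  exact h7

/-- many levels -/
theorem dl_sum {f : ℤ → ℝ} (hf : ∀ x, |f x| ≤ 1) (h2 : ∀ y, f (2 * y) = f y) {I : ℕ} (hI : 1 ≤ I) {A : ℝ} (hA : 1 ≤ A)
    (J : ℕ) : ∑ j ∈ range J, dl f I (A * 2 ^ j)
      ≤ 14 * (I / A) + 8 * AS (fun n => vr f n / n) A (A * 2 ^ (J + 1)) := by
  have hA0 : 0 < A := by linarith
  have hI0 : (0 : ℝ) < I := by exact_mod_cast hI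
  have hpow : ∀ j : ℕ, (1 : ℝ) ≤ 2 ^ j := fun j => one_le_pow₀ (by norm_num)
  have h1 : ∀ j ∈ range J, dl f I (A * 2 ^ j) ≤ 7 * (I / (A * 2 ^ j))
      + 4 * (AS (fun n => vr f n / n) (A * 2 ^ j) (A * 2 ^ (j + 1))
        + AS (fun n => vr f n / n) (A * 2 ^ (j + 1)) (A * 2 ^ (j + 2))) := by
    intro j _
    have h3 := dl_le hf h2 hI (A := A * 2 ^ j) (by nlinarith [hpow j])
    have e1 : 2 * (A * 2 ^ j) = A * 2 ^ (j + 1) := by ring
    have e2 : 4 * (A * 2 ^ j) = A * 2 ^ (j + 2) := by ring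
    rwa [e1, e2] at h3
  refine (sum_le_sum h1).trans ?_
  rw [sum_add_distrib, ← mul_sum, ← mul_sum, sum_add_distrib]
  have h3 : ∀ J : ℕ, ∑ j ∈ range J, AS (fun n => vr f n / n) (A * 2 ^ j) (A * 2 ^ (j + 1))
      = AS (fun n => vr f n / n) A (A * 2 ^ J) := by
    intro J
    induction J with
    | zero => unfold AS; simp
    | succ J ih =>
      rw [sum_range_succ, ih]
      apply AS_add
      · nlinarith [hpow J]
      · rw [pow_succ]; nlinarith [hpow J]
  have h4 : ∀ J : ℕ, ∑ j ∈ range J, AS (fun n => vr f n / n) (A * 2 ^ (j + 1)) (A * 2 ^ (j + 2))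
      ≤ AS (fun n => vr f n / n) A (A * 2 ^ (J + 1)) := by
    intro J
    rw [← h3 (J + 1), sum_range_succ']
    have : 0 ≤ AS (fun n => vr f n / n) (A * 2 ^ 0) (A * 2 ^ (0 + 1)) := by
      apply AS_nonneg
      intro x hx
      rw [pow_zero, mul_one] at hx
      exact div_nonneg (vr_nonneg f x) (by linarith)
    linarith
  have h5 : AS (fun n => vr f n / n) A (A * 2 ^ J) ≤ AS (fun n => vr f n / n) A (A * 2 ^ (J + 1)) := by
    apply AS_mono_set
    · intro x hx; exact div_nonneg (vr_nonneg f x) (by linarith)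
    · exact le_rfl
    · rw [pow_succ]; nlinarith [hpow J]
  have h6 : ∀ J : ℕ, ∑ j ∈ range J, (I : ℝ) / (A * 2 ^ j) ≤ 2 * (I / A) - I / A / 2 ^ J * 2 + I / A / 2 ^ J * 0 := by
    intro J
    induction J with
    | zero => simp only [range_zero, sum_empty, pow_zero]; linarith
    | succ J ih =>
      rw [sum_range_succ]
      have e : (I : ℝ) / (A * 2 ^ J) = I / A / 2 ^ J := by field_simp
      rw [e]
      have e2 : (I : ℝ) / A / 2 ^ (J + 1) = I / A / 2 ^ J / 2 := by rw [pow_succ]; field_simp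
      rw [e2]
      linarith
  have h7 := h6 J
  have h8 : 0 ≤ (I : ℝ) / A / 2 ^ J := by positivity
  have h9 := h4 J
  rw [h3 J]
  linarith

end Pool.Agent.KS6_32.BD
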