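import Pool.Graph.R_seed8.Y965.SI.Ene
import Pool.Graph.R_seed8.H499R2.CO.R2

/-! One stage for the averages over the odd integers of an interval, with a rate. -/

set_option autoImplicit false

namespace Pool.Agent.KS6_32.BD

open Pool.Agent.H320R2.PD Pool.Agent.H499R2.ND Pool.Agent.H499R2.CO Pool.Agent.W41.FU Finset
open Pool.Agent.Y965.SI

theorem log_le_four_sqrt {x : ℝ} (hx : 1 ≤ x) : Real.log x ≤ 4 * √ (√ x) := by
  have h0 : 0 < √ (√ x) := Real.sqrt_pos.2 (Real.sqrt_pos.2 (by linarith))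
  have h1 : Real.log (√ (√ x)) = Real.log x / 2 / 2 := by
    rw [Real.log_sqrt (Real.sqrt_nonneg _), Real.log_sqrt (by linarith)]
  have h2 := Real.log_le_sub_one_of_pos h0
  rw [h1] at h2
  linarith

/-- the fourth root of `k` -/
noncomputable def rt (k : ℕ) : ℝ := √ (√ (k : ℝ))

theorem rt_pow (k : ℕ) : rt k ^ 4 = k := by
  have h1 : rt k ^ 2 = √ (k : ℝ) := Real.sq_sqrt (Real.sqrt_nonneg _)
  have h2 : (√ (k : ℝ)) ^ 2 = k := Real.sq_sqrt (Nat.cast_nonneg _)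
  calc rt k ^ 4 = (rt k ^ 2) ^ 2 := by ring
    _ = (k : ℝ) := by rw [h1, h2]

theorem rt_nonneg (k : ℕ) : 0 ≤ rt k := Real.sqrt_nonneg _

theorem rt_mono {k l : ℕ} (h : k ≤ l) : rt k ≤ rt l :=
  Real.sqrt_le_sqrt (Real.sqrt_le_sqrt (by exact_mod_cast h))

/-- the rate of coalescence in the form used below -/
theorem q_small : ∃ C : ℝ, 0 < C ∧ ∀ k k' m' : ℕ, 100 ≤ k → k ≤ k' → (m' : ℝ) ≤ rt k → ∀ h : ℤ,
    |(h : ℝ)| ≤ 2 * 3 ^ m' → q step (0, 0) k' (0, h) ≤ C / rt k := by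
  obtain ⟨C, hC, hq⟩ := q_rate
  refine ⟨4 * C, by positivity, ?_⟩
  intro k k' m' hk hkk' hm h hh
  have hk100 : (100 : ℝ) ≤ k := by exact_mod_cast hk
  set r := rt k with hr
  have hr0 : 0 ≤ r := rt_nonneg k
  have hr4 : r ^ 4 = k := rt_pow k
  have hr3 : 3 ≤ r := by
    by_contra hcon
    push Not at hcon
    have : r ^ 4 < 3 ^ 4 := pow_lt_pow_left₀ hcon hr0 (by norm_num)
    linarith
  set s := rt k' with hs
  have hrs : r ≤ s := rt_mono hkk'
  have hs4 : s ^ 4 = k' := rt_pow k'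
  have hs0 : 0 < s := by linarith
  have hk'1 : 1 ≤ k' := by omega
  have hk'R : (100 : ℝ) ≤ k' := by
    have : (k : ℝ) ≤ k' := by exact_mod_cast hkk'
    linarith
  have h1 := hq k' hk'1 0 (m' + 1) h (by
    refine hh.trans ?_
    rw [pow_succ]
    have : (3 : ℝ) ^ m' ≤ 4 ^ m' := pow_le_pow_left₀ (by norm_num) (by norm_num) m'
    have h4 : (0 : ℝ) < 4 ^ m' := by positivity
    linarith)
  refine h1.trans ?_
  have h2 : √ (1 + ((0 : ℕ) : ℝ) ^ 2 + ((m' + 1 : ℕ) : ℝ)) ≤ √ (2 * r) := by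
    apply Real.sqrt_le_sqrt
    push_cast
    linarith
  have h3 : rho k' ≤ √ (8 / r ^ 3) := by
    unfold rho
    apply Real.sqrt_le_sqrt
    have h4 := log_le_four_sqrt (x := (k' : ℝ) + 1) (by linarith)
    have h5 : √ (√ ((k' : ℝ) + 1)) ≤ 2 * s := by
      apply Real.sqrt_le_iff.2 ⟨by positivity, ?_⟩
      apply Real.sqrt_le_iff.2 ⟨by positivity, ?_⟩
      have : ((2 * s) ^ 2) ^ 2 = 16 * s ^ 4 := by ring
      rw [this, hs4]
      linarith
    have h6 : Real.log ((k' : ℝ) + 1) ≤ 8 * s := by linarith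
    rw [← hs4, div_le_div_iff₀ (by positivity) (by positivity)]
    have h7 : r ^ 3 ≤ s ^ 3 := pow_le_pow_left₀ hr0 hrs 3
    calc Real.log (s ^ 4 + 1) * r ^ 3 ≤ (8 * s) * s ^ 3 := by
          apply mul_le_mul _ h7 (by positivity) (by positivity)
          rw [hs4]; exact h6
      _ = 8 * s ^ 4 := by ring
  have h4 : √ (2 * r) * √ (8 / r ^ 3) = 4 / r := by
    rw [← Real.sqrt_mul (by positivity)]
    have e : 2 * r * (8 / r ^ 3) = (4 / r) ^ 2 := by field_simp; norm_num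
    rw [e, Real.sqrt_sq (by positivity)]
  calc C * √ (1 + ((0 : ℕ) : ℝ) ^ 2 + ((m' + 1 : ℕ) : ℝ)) * rho k' ≤ C * √ (2 * r) * √ (8 / r ^ 3) := by
        apply mul_le_mul (mul_le_mul_of_nonneg_left h2 hC.le) h3 (rho_nonneg _) (by positivity)
    _ = C * (√ (2 * r) * √ (8 / r ^ 3)) := by ring
    _ = 4 * C / r := by rw [h4]; ring

/-- ONE STAGE, with the rate `k ^ (- 1 / 4)`. -/
theorem stageQ {d : ℤ} (hd : Odd d) (hd3 : IsCoprime d 3) (hdd : d * d = 1) :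
    ∃ Cs : ℝ, 0 < Cs ∧ ∀ k : ℕ, 100 ≤ k → ∀ f : ℤ → ℝ, InvF d f → ∀ a b : ℝ, a ≤ b → 10 * (k : ℝ) ≤ Real.log (b - a) →
      |av f a b - ∑ w ∈ FW (3 * k) k, wwt w * av f (a * 3 ^ k / 2 ^ w.sum) (b * 3 ^ k / 2 ^ w.sum)| ≤ Cs / rt k := by
  classical
  obtain ⟨Cq, hCq, hkq⟩ := q_small
  obtain ⟨C, hC, hmix⟩ := mix 8
  have hd1 : |(d : ℝ)| = 1 := by
    have h7 : (d : ℝ) * d = 1 := by exact_mod_cast hdd
    have h8 : |(d : ℝ)| * |(d : ℝ)| = 1 := by rw [← abs_mul, h7, abs_one]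
    nlinarith [abs_nonneg (d : ℝ)]
  refine ⟨512 * C + 76800 + 60 + 8 * Cq, by positivity, ?_⟩
  intro k hk f hf a b hab hL
  have hk100 : (100 : ℝ) ≤ (k : ℝ) := by exact_mod_cast hk
  have hk1 : 1 ≤ k := by omega
  have hkpos : (0 : ℝ) < k := by linarith
  set ℓ := b - a with hℓ
  set L := Real.log ℓ with hLdef
  have hLpos : 0 < L := by linarith
  have hℓpos : 0 < ℓ := by
    by_contra hcon
    have h1 : ℓ = 0 := le_antisymm (not_lt.1 hcon) (by rw [hℓ]; linarith)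
    rw [hLdef, h1, Real.log_zero] at hLpos
    exact lt_irrefl _ hLpos
  have hexpL : Real.exp L = ℓ := Real.exp_log hℓpos
  -- parameters
  set r : ℝ := rt k with hr
  have hr4 : r ^ 4 = k := rt_pow k
  have hr0 : 0 ≤ r := Real.sqrt_nonneg _
  have hr3 : 3 ≤ r := by
    by_contra hcon
    push Not at hcon
    have : r ^ 4 < 3 ^ 4 := pow_lt_pow_left₀ hcon hr0 (by norm_num)
    linarith
  set m' : ℕ := ⌊r⌋₊ with hm'
  have hm1 : (m' : ℝ) ≤ r := Nat.floor_le hr0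
  have hm2 : r / 2 ≤ m' := by
    have := Nat.lt_floor_add_one r
    linarith
  have hm'1 : 1 ≤ m' := by
    have : (1 : ℝ) ≤ m' := by linarith
    exact_mod_cast this
  have hrk : r ≤ k := by
    rw [← hr4]
    exact le_self_pow₀ (by linarith only [hr3]) (by norm_num)
  have hm'k : m' ≤ k := by
    have : (m' : ℝ) ≤ k := hm1.trans hrk
    exact_mod_cast this
  set k' : ℕ := ⌊L / (2 * Real.log 2)⌋₊ with hk'
  have hl2 := Real.log_two_gt_d9
  have hl2' := Real.log_two_lt_d9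
  have hk'1 : (k' : ℝ) * (2 * Real.log 2) ≤ L := by
    have := Nat.floor_le (a := L / (2 * Real.log 2)) (by positivity)
    rwa [← hk', le_div_iff₀ (by linarith)] at this
  have hk'2 : 6 * (k : ℝ) ≤ k' := by
    have h1 := Nat.lt_floor_add_one (L / (2 * Real.log 2))
    rw [← hk'] at h1
    have h2 : 7 * (k : ℝ) ≤ L / (2 * Real.log 2) := by
      rw [le_div_iff₀ (by linarith only [hl2])]
      have h3 : 7 * (k : ℝ) * (2 * Real.log 2) ≤ 7 * (k : ℝ) * 1.4 :=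
        mul_le_mul_of_nonneg_left (by linarith only [hl2']) (by linarith only [hkpos])
      linarith only [h3, hL, hkpos]
    linarith
  set η : ℝ := Cq / r with hη
  have hη0 : 0 ≤ η := by positivity
  have hkk' : k ≤ k' := by
    have : (k : ℝ) ≤ k' := by linarith
    exact_mod_cast this
  have hQ : ∀ h : ℤ, |(h : ℝ)| ≤ 2 * 3 ^ m' → q step (0, 0) k' (0, h) ≤ η := fun h hh =>
    hkq k k' m' hk hkk' hm1 h hh
  have hTm : 41 * k / 20 ≤ k * (3 * k) :=
    (show 41 * k / 20 ≤ 3 * k by omega).trans (Nat.le_mul_of_pos_left (3 * k) hk1)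
  have hmain := stageW hd hd3 hdd hf hab (3 * k) k m' ((39 * k + 19) / 20) (41 * k / 20) k' hk1 hm'k hTm
    hη0 hQ
  set GG := GW (3 * k) k ((39 * k + 19) / 20) (41 * k / 20) with hGG
  set X : ℝ := (2 : ℝ) ^ (41 * k / 20) with hX
  have hX1 : 1 ≤ X := one_le_pow₀ (by norm_num)
  -- sizes
  have hXe : X ≤ Real.exp (1.43 * k) := by
    have := (two_pow_le (t := (k : ℝ)) (η := 1) (k := k) (by linarith)).1
    rw [one_mul] at this
    exact this
  have hke : (2 : ℝ) ^ k' ≤ Real.exp (L / 2) := by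
    have e : (2 : ℝ) ^ k' = Real.exp (k' * Real.log 2) := by
      rw [Real.exp_nat_mul, Real.exp_log (by norm_num)]
    rw [e]
    apply Real.exp_le_exp.2
    linarith
  have hbig : (X * 2 ^ k') / ℓ ≤ 1 / k := by
    rw [← hexpL, div_le_iff₀ (Real.exp_pos _)]
    have h1 : X * 2 ^ k' ≤ Real.exp (1.43 * k) * Real.exp (L / 2) :=
      mul_le_mul hXe hke (by positivity) (Real.exp_pos _).le
    rw [← Real.exp_add] at h1
    have h2 : Real.exp (1.43 * k + L / 2) ≤ Real.exp (-k + L) := Real.exp_le_exp.2 (by linarith)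
    have h3 := exp_neg_le_inv hkpos
    have h4 : Real.exp (-k + L) = Real.exp (-k) * Real.exp L := Real.exp_add _ _
    have h5 : Real.exp (-(k : ℝ)) * Real.exp L ≤ 1 / k * Real.exp L :=
      mul_le_mul_of_nonneg_right h3 (Real.exp_pos _).le
    linarith
  have h2k' : (1 : ℝ) ≤ 2 ^ k' := one_le_pow₀ (by norm_num)
  have hXl : X / ℓ ≤ 1 / k := by
    refine le_trans ?_ hbig
    apply div_le_div_of_nonneg_right _ hℓpos.le
    exact le_mul_of_one_le_right (by linarith only [hX1]) h2k'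
  have h1l : 1 / ℓ ≤ 1 / k := by
    refine le_trans ?_ hXl
    exact div_le_div_of_nonneg_right hX1 hℓpos.le
  -- the mixing defect
  have hDD : DD (3 * k) k m' ≤ 256 * C / k := by
    have h1 := hmix k 0 m' (3 * k) hk1 hm'1 hm'k le_rfl
    have e : DD (3 * k) k m' = ∑ T ∈ range (k * (3 * k) + 1), dev (FWT (3 * k) k T) wwt (fun w => (Wo w : ℤ)) (k + 0) m' := rfl
    rw [e]
    refine h1.trans ?_
    have hm'pos : (0 : ℝ) < m' := by linarith
    have e2 : ((k : ℝ) + ((0 : ℕ) : ℝ)) * (C * ((1 / (m' : ℝ)) ^ 8 + (((0 : ℕ) : ℝ) / k) ^ 8)) = C * (k / (m' : ℝ) ^ 8) := by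
      push_cast
      rw [zero_div, zero_pow (by norm_num), add_zero, add_zero, one_div, inv_pow]
      ring
    rw [e2]
    have h3 : (k : ℝ) / (m' : ℝ) ^ 8 ≤ 256 / k := by
      rw [div_le_div_iff₀ (by positivity) hkpos]
      have h4 : (r / 2) ^ 8 ≤ (m' : ℝ) ^ 8 := pow_le_pow_left₀ (by positivity) hm2 8
      have h5 : (r / 2) ^ 8 * 256 = k * k := by
        rw [← hr4]; ring
      linarith
    calc C * (k / (m' : ℝ) ^ 8) ≤ C * (256 / k) := mul_le_mul_of_nonneg_left h3 hC.le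
      _ = 256 * C / k := by ring
  have hDD0 : 0 ≤ DD (3 * k) k m' := sum_nonneg fun _ _ => sum_nonneg fun _ _ => abs_nonneg _
  have hmass := mass_GW k
  rw [← hGG] at hmass
  have hmass2 : 3 * Real.exp (-(k / 12800 : ℝ)) ≤ 38400 / k := by
    have h1 := exp_neg_le_inv (x := (k / 12800 : ℝ)) (by positivity)
    rw [one_div_div] at h1
    have : 3 * (12800 / (k : ℝ)) = 38400 / k := by ring
    linarith
  have hsub : GG ⊆ FW (3 * k) k := by rw [hGG]; unfold GW; exact filter_subset _ _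
  have hGc : (GG.card : ℝ) ≤ X := GW_card _ _ _ _
  -- the averages
  have hav : ∀ w : List ℕ, |av f (a * 3 ^ k / 2 ^ w.sum) (b * 3 ^ k / 2 ^ w.sum)| ≤ 1 := by
    intro w
    apply av_abs hf.1
    apply div_le_div_of_nonneg_right _ (by positivity)
    exact mul_le_mul_of_nonneg_right hab (by positivity)
  have hterm : ∑ w ∈ GG, OS f (a * 3 ^ k / 2 ^ w.sum) (b * 3 ^ k / 2 ^ w.sum) / 3 ^ k
      = ℓ / 2 * ∑ w ∈ GG, wwt w * av f (a * 3 ^ k / 2 ^ w.sum) (b * 3 ^ k / 2 ^ w.sum)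
        + ∑ w ∈ GG, av f (a * 3 ^ k / 2 ^ w.sum) (b * 3 ^ k / 2 ^ w.sum) / 3 ^ k := by
    rw [mul_sum, ← sum_add_distrib]
    apply sum_congr rfl
    intro w _
    have hpos : 0 < (b * 3 ^ k / 2 ^ w.sum - a * 3 ^ k / 2 ^ w.sum) / 2 + 1 := by
      have : a * 3 ^ k / 2 ^ w.sum ≤ b * 3 ^ k / 2 ^ w.sum := by
        apply div_le_div_of_nonneg_right _ (by positivity)
        exact mul_le_mul_of_nonneg_right hab (by positivity)
      linarith
    have e1 : OS f (a * 3 ^ k / 2 ^ w.sum) (b * 3 ^ k / 2 ^ w.sum)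
        = av f (a * 3 ^ k / 2 ^ w.sum) (b * 3 ^ k / 2 ^ w.sum) * ((b * 3 ^ k / 2 ^ w.sum - a * 3 ^ k / 2 ^ w.sum) / 2 + 1) := by
      unfold av
      rw [div_mul_cancel₀ _ hpos.ne']
    rw [e1]
    generalize av f (a * 3 ^ k / 2 ^ w.sum) (b * 3 ^ k / 2 ^ w.sum) = y
    rw [Pool.Agent.Y965.SI.wwt_eq, one_div, inv_pow, hℓ]
    field_simp
  have hsmall : |∑ w ∈ GG, av f (a * 3 ^ k / 2 ^ w.sum) (b * 3 ^ k / 2 ^ w.sum) / 3 ^ k| ≤ X := by
    refine (abs_sum_le_sum_abs _ _).trans ?_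
    calc ∑ w ∈ GG, |av f (a * 3 ^ k / 2 ^ w.sum) (b * 3 ^ k / 2 ^ w.sum) / 3 ^ k| ≤ ∑ w ∈ GG, (1 : ℝ) := by
          apply sum_le_sum
          intro w _
          rw [abs_div, abs_of_pos (show (0 : ℝ) < 3 ^ k by positivity), div_le_one (by positivity)]
          exact (hav w).trans (one_le_pow₀ (by norm_num))
      _ = GG.card := by rw [sum_const, nsmul_eq_mul, mul_one]
      _ ≤ X := hGc
  set SG := ∑ w ∈ GG, wwt w * av f (a * 3 ^ k / 2 ^ w.sum) (b * 3 ^ k / 2 ^ w.sum) with hSG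
  have hfull : |SG - ∑ w ∈ FW (3 * k) k, wwt w * av f (a * 3 ^ k / 2 ^ w.sum) (b * 3 ^ k / 2 ^ w.sum)|
      ≤ 38400 / k := by
    rw [hSG, ← sum_sdiff hsub]
    have e : ∀ x y : ℝ, x - (y + x) = -y := fun x y => by ring
    rw [e, abs_neg]
    refine (abs_sum_le_sum_abs _ _).trans ?_
    calc ∑ w ∈ FW (3 * k) k \ GG, |wwt w * av f (a * 3 ^ k / 2 ^ w.sum) (b * 3 ^ k / 2 ^ w.sum)|
        ≤ ∑ w ∈ FW (3 * k) k \ GG, wwt w := by
          apply sum_le_sum
          intro w _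
          rw [abs_mul, abs_of_nonneg (wwt_nonneg w)]
          have := hav w
          exact mul_le_of_le_one_right (wwt_nonneg w) this
      _ ≤ 38400 / k := by
          have h1 := sum_sdiff (f := wwt) hsub
          have h2 := sum_wwt_le (3 * k) k
          linarith
  have havab : |av f a b * (ℓ / 2) - OS f a b| ≤ 1 := by
    have hpos : 0 < ℓ / 2 + 1 := by positivity
    have e : av f a b * (ℓ / 2) - OS f a b = - av f a b := by
      have e1 : OS f a b = av f a b * (ℓ / 2 + 1) := by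
        unfold av
        rw [div_mul_cancel₀ _ hpos.ne']
      rw [e1]; ring
    rw [e, abs_neg]
    exact av_abs hf.1 hab
  rw [hterm] at hmain
  -- conclusion
  have hkey : |av f a b - SG| * (ℓ / 2) ≤ (ℓ / 2 + X) * DD (3 * k) k m' + ℓ / 2 * (1 - ∑ w ∈ GG, wwt w)
        + 1 + (|(d : ℝ)| + 3) * X + ((4 + 2 * η * 2 ^ k') * X + 2 * η * ℓ) + X + 1 := by
    have e : |av f a b - SG| * (ℓ / 2) = |(av f a b - SG) * (ℓ / 2)| := by
      rw [abs_mul, abs_of_pos (show 0 < ℓ / 2 by positivity)]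
    rw [e]
    have e2 : (av f a b - SG) * (ℓ / 2) = (av f a b * (ℓ / 2) - OS f a b)
        + (OS f a b - (ℓ / 2 * SG + ∑ w ∈ GG, av f (a * 3 ^ k / 2 ^ w.sum) (b * 3 ^ k / 2 ^ w.sum) / 3 ^ k))
        + ∑ w ∈ GG, av f (a * 3 ^ k / 2 ^ w.sum) (b * 3 ^ k / 2 ^ w.sum) / 3 ^ k := by ring
    rw [e2]
    refine (abs_add_three _ _ _).trans ?_
    linarith
  have hkey2 : |av f a b - SG| ≤ (512 * C + 38400 + 60) / k + 8 * η := by
    have h1 : |av f a b - SG| ≤ ((ℓ / 2 + X) * DD (3 * k) k m' + ℓ / 2 * (1 - ∑ w ∈ GG, wwt w)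
        + 1 + (|(d : ℝ)| + 3) * X + ((4 + 2 * η * 2 ^ k') * X + 2 * η * ℓ) + X + 1) / (ℓ / 2) := by
      rw [le_div_iff₀ (by positivity)]; exact hkey
    refine h1.trans ?_
    have e : ((ℓ / 2 + X) * DD (3 * k) k m' + ℓ / 2 * (1 - ∑ w ∈ GG, wwt w)
        + 1 + (|(d : ℝ)| + 3) * X + ((4 + 2 * η * 2 ^ k') * X + 2 * η * ℓ) + X + 1) / (ℓ / 2)
        = (1 + 2 * (X / ℓ)) * DD (3 * k) k m' + (1 - ∑ w ∈ GG, wwt w) + 4 * (1 / ℓ)
          + (18 * (X / ℓ)) + 4 * η * ((X * 2 ^ k') / ℓ) + 4 * η := by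
      rw [hd1]
      field_simp
      ring
    rw [e]
    have f1 : (1 + 2 * (X / ℓ)) * DD (3 * k) k m' ≤ 2 * (256 * C / k) := by
      apply mul_le_mul _ hDD hDD0 (by norm_num)
      have : 1 / (k : ℝ) ≤ 1 / 100 := one_div_le_one_div_of_le (by norm_num) hk100
      linarith
    have f2 : 4 * η * ((X * 2 ^ k') / ℓ) ≤ 4 * η := by
      have h0 : (X * 2 ^ k') / ℓ ≤ 1 := by
        have : 1 / (k : ℝ) ≤ 1 := by rw [div_le_one hkpos]; linarith
        linarith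
      calc 4 * η * ((X * 2 ^ k') / ℓ) ≤ 4 * η * 1 := mul_le_mul_of_nonneg_left h0 (by positivity)
        _ = 4 * η := by ring
    have f3 : (512 * C + 38400 + 60) / (k : ℝ) = 2 * (256 * C / k) + 38400 / k + 60 * (1 / k) := by ring
    have f4 : 0 < 1 / (k : ℝ) := by positivity
    rw [f3]
    linarith
  have hrpos : 0 < r := by linarith
  have hk1r : ∀ c : ℝ, 0 ≤ c → c / (k : ℝ) ≤ c / r := fun c hc =>
    div_le_div_of_nonneg_left hc hrpos hrk
  have h8 := hk1r (512 * C + 38400 + 60) (by positivity)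
  have h8' := hk1r 38400 (by norm_num)
  have e9 : (512 * C + 76800 + 60 + 8 * Cq) / r = (512 * C + 38400 + 60) / r + 38400 / r + 8 * η := by
    rw [hη]; ring
  have h9 := abs_sub_le (av f a b) SG (∑ w ∈ FW (3 * k) k, wwt w * av f (a * 3 ^ k / 2 ^ w.sum) (b * 3 ^ k / 2 ^ w.sum))
  rw [e9]
  linarith

end Pool.Agent.KS6_32.BD
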